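import Pool.Agent.Run7.h439.DC.Dig2

set_option autoImplicit false

/-!
# The inequality `l(n) ≤ n` in classes defined by digits

A class consists of the integers whose values of given strongly additive digit functions (for example
sums of digits), in pairwise coprime odd bases, lie in given residue classes. One such class decides about
all integers: if `l(n) ≤ n` for almost all `n` of one class (even only along a sequence of cut-offs `X`),
then every positive integer reaches `1`; and if `l(n) ≤ n` for all large `n` of one class, then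
`l(n) ≤ 2 n` for all but `O(X ^ (1 - κ))` of all `n ≤ X`. In every class the exceptions to `l(n) ≤ n` have
their proportional share, and so has every bounded function of `l`, with a power saving error term which
is uniform in the function and the class.

Method: a dispersion argument. For `n > 2 ^ t` the number `l(n)` is a function of `T^t(n)` (`T` the shortcut
function) and the number of odd terms before it; for a given number of odd terms the integers `n ≤ N`
with the same `T^t(n)` lie in a short interval and are determined by their residue modulo `2 ^ t`, and the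
correlations of the multiplicative digit functions along the progressions modulo `2 ^ t` are products over
the bases.
-/

namespace Pool.Agent.Results.MP_e43fce_nt.DigitClassesLevels

open Filter Topology

/-- the Collatz function -/
def C (n : ℕ) : ℕ := if n % 2 = 0 then n / 2 else 3 * n + 1

/-- the total stopping time `l(n)`, the least `k ≥ 0` with `C^k(n) = 1`, and `⊤ = ∞` if there is none -/
noncomputable def l (n : ℕ) : ℕ∞ := sInf {k : ℕ∞ | ∃ j : ℕ, C^[j] n = 1 ∧ k = j}

/-- the number of odd terms among `n, C n, ..., C^(k-1) n` -/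
def odds (k n : ℕ) : ℕ := ((Finset.range k).filter fun i => C^[i] n % 2 = 1).card

/-- `min (l(n), t)` -/
noncomputable def truncated (t : ℝ) (n : ℕ) : ℝ := if l n = ⊤ then t else min ((l n).toNat : ℝ) t

/-- `W` is strongly `q`-additive: `W(n)` is the sum of the values of `W` at the digits of `n` in base `q`. -/
def StronglyAdditive (q : ℕ) (W : ℕ → ℤ) : Prop := ∀ n r : ℕ, r < q → W (q * n + r) = W n + W r

/-- There is no prime `p ∣ m` such that `W(r) ≡ r W(1)` modulo `p` for all `r ≤ q`. For the sum of the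
digits in base `q` this says that `m` is coprime to `q - 1`. -/
def Unobstructed (q : ℕ) (W : ℕ → ℤ) (m : ℕ) : Prop :=
  ∀ p : ℕ, p.Prime → p ∣ m → ∃ r : ℕ, r ≤ q ∧ ¬ W r ≡ r * W 1 [ZMOD p]

/-- The data: pairwise coprime odd bases `q i ≥ 3`, strongly `q i`-additive functions `W i` with integer
values, and moduli `m i ≥ 1` without obstruction. -/
structure Data {s : ℕ} (q m : Fin s → ℕ) (W : Fin s → ℕ → ℤ) : Prop where
  odd : ∀ i, 3 ≤ q i ∧ q i % 2 = 1
  coprime : ∀ i j, i ≠ j → Nat.Coprime (q i) (q j)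
  additive : ∀ i, StronglyAdditive (q i) (W i)
  pos : ∀ i, 1 ≤ m i
  free : ∀ i, Unobstructed (q i) (W i) (m i)

/-- the class: `W i (n) ≡ a i` modulo `m i` for all `i` -/
def InClass {s : ℕ} (m : Fin s → ℕ) (W : Fin s → ℕ → ℤ) (a : Fin s → ℤ) (n : ℕ) : Prop :=
  ∀ i, W i n ≡ a i [ZMOD m i]

/-- the number of the `n` with `1 ≤ n ≤ X` and the property `P` -/
noncomputable def count (P : ℕ → Prop) (X : ℕ) : ℝ := ({n : ℕ | 1 ≤ n ∧ n ≤ X ∧ P n}.ncard : ℝ)

/-- the positive integers with the property `P` have the natural density `d` -/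
def HasDensity (P : ℕ → Prop) (d : ℝ) : Prop := Tendsto (fun N : ℕ => count P N / N) atTop (𝓝 d)

/-- `3 / log (4/3) * log n + x * log 6 * √(2 log n / (log (4/3))^3)` -/
noncomputable def bound (x : ℝ) (n : ℕ) : ℝ :=
  3 / Real.log (4 / 3) * Real.log n
    + x * (Real.log 6 * Real.sqrt (2 * Real.log n / Real.log (4 / 3) ^ 3))

/-- The distribution function of the standard normal law. -/
noncomputable def Phi (x : ℝ) : ℝ :=
  ProbabilityTheory.cdf (ProbabilityTheory.gaussianReal 0 1) x

/-- `l(n)` is finite, at most `bound x n` and congruent to `u` modulo `r`, and the number of odd terms of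
the trajectory before `1` is reached is congruent to `v` modulo `r`. -/
def Level (r : ℕ) (u v : ℤ) (x : ℝ) (n : ℕ) : Prop :=
  ∃ t : ℕ, l n = t ∧ (t : ℝ) ≤ bound x n ∧ (t : ℤ) ≡ u [ZMOD r] ∧ (odds t n : ℤ) ≡ v [ZMOD r]

/-- `n` is an exception to the inequality `l(n) ≤ n`. -/
def Exceptional (n : ℕ) : Prop := (n : ℕ∞) < l n

open Pool.Agent.H499R2.HL Pool.Agent.Y965.PL Pool.Agent.Run7.h439.DC

theorem C_eq : C = Pool.Agent.H499R2.ND.CC := by funext a; rfl

theorem l_eq {n t : ℕ} (h : Ts n t) : l n = t := by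
  unfold l
  rw [C_eq]
  apply le_antisymm
  · exact sInf_le ⟨t, h.1, rfl⟩
  · refine le_sInf ?_
    rintro j ⟨i, hi, rfl⟩
    have : t ≤ i := by
      by_contra hlt
      exact h.2 i (by omega) hi
    exact_mod_cast this

theorem l_top {n : ℕ} (h : ¬ ∃ k, H k n) : l n = ⊤ := by
  unfold l
  rw [C_eq]
  have : {k : ℕ∞ | ∃ j : ℕ, Pool.Agent.H499R2.ND.CC^[j] n = 1 ∧ k = j} = ∅ := by
    rw [Set.eq_empty_iff_forall_notMem]
    rintro k ⟨j, hj, _⟩
    exact h (CC_ex.1 ⟨j, hj⟩)
  rw [this, sInf_empty]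

theorem l_H {n k : ℕ} (h : H k n) : l n = ((k + Pool.Agent.H499R2.LT.odn k n : ℕ) : ℕ∞) :=
  l_eq (Ts_of_H h).1

theorem l_ne_top {n : ℕ} : l n ≠ ⊤ ↔ ∃ k, H k n := by
  constructor
  · intro h
    by_contra hcon
    exact h (l_top hcon)
  · rintro ⟨k, hk⟩
    rw [l_H hk]
    exact ENat.natCast_ne_top _

theorem l_iff {n t : ℕ} : l n = t ↔ Ts n t := by
  constructor
  · intro h
    obtain ⟨k, hk⟩ := l_ne_top.1 (show l n ≠ ⊤ by rw [h]; exact ENat.natCast_ne_top t)
    have h1 := l_H hk
    rw [h] at h1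
    have h2 : t = k + Pool.Agent.H499R2.LT.odn k n := by exact_mod_cast h1
    rw [h2]; exact (Ts_of_H hk).1
  · exact l_eq

theorem level_iff (m : ℕ) (a b : ℤ) (x : ℝ) (n : ℕ) : Level m a b x n ↔
    Lv valL (clsL m a b) (th (3 / Real.log (4 / 3)) bL x) n := by
  have h := level_iff_C m a b x n
  rw [true_and] at h
  rw [← h]
  unfold Level
  refine exists_congr fun t => ?_
  rw [l_iff]
  have e : odds t n = Pool.Agent.H499R2.LT.ocn t n := by
    unfold odds Pool.Agent.H499R2.LT.ocn
    rw [C_eq]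
  rw [e]
  constructor
  · rintro ⟨h1, h2, h3, h4⟩; exact ⟨h2, h1, h3, h4⟩
  · rintro ⟨h1, h2, h3, h4⟩; exact ⟨h2, h1, h3, h4⟩

theorem count_ind (P : ℕ → Prop) (X : ℕ) : count P X = ∑ n ∈ Finset.Icc 1 X, ind P n := by
  classical
  unfold ind count
  rw [Finset.sum_boole]
  have e : {n : ℕ | 1 ≤ n ∧ n ≤ X ∧ P n} = ((Finset.Icc 1 X).filter fun n => P n : Finset ℕ) := by
    ext n
    simp only [Set.mem_ofPred_eq, Finset.coe_filter, Finset.mem_Icc, and_assoc]
  rw [e, Set.ncard_coe_finset]

theorem along_of {P Q : ℕ → Prop} {d : ℝ} (h : MnS id (ind Q) d) (hPQ : ∀ n, P n ↔ Q n) : HasDensity P d := by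
  unfold HasDensity
  unfold MnS at h
  refine h.congr fun X => ?_
  rw [count_ind P X]
  congr 1
  apply Finset.sum_congr rfl
  intro n _
  exact ind_congr (hPQ _).symm

theorem log_small (B : ℝ) : ∀ᶠ n : ℕ in atTop, B * Real.log n < n := by
  have h1 : Tendsto (fun x : ℝ => Real.log x / x) atTop (𝓝 0) := by
    have := Real.isLittleO_log_id_atTop.tendsto_div_nhds_zero
    exact this
  have h2 := (h1.comp tendsto_natCast_atTop_atTop).const_mul (|B| + 1)
  rw [mul_zero] at h2
  filter_upwards [h2.eventually (gt_mem_nhds zero_lt_one), eventually_ge_atTop 1] with n h3 h4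
  have hn : (0 : ℝ) < n := by exact_mod_cast h4
  have h5 : (|B| + 1) * Real.log n < n := by
    have h6 : (|B| + 1) * (Real.log n / n) < 1 := h3
    rw [← mul_div_assoc, div_lt_one hn] at h6
    exact h6
  have h7 : 0 ≤ Real.log (n : ℝ) := Real.log_natCast_nonneg n
  have h8 := le_abs_self B
  nlinarith

/-- THE TOTAL STOPPING TIME `l` IN DIGIT CLASSES. The positive integers with `l(n) < ∞` have a positive
natural density `δ`, and `δ = 1` if and only if all are of this kind. For all data `q, m, W` there are `K`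
and `0 < c < 1` such that for every class `a`, with `ρ = ∏ 1 / m i`:

(1) The exceptions `n` of the class to `l(n) ≤ n` have natural density `ρ (1 - δ)`.

(2) If for infinitely many `X` the inequality `l(n) ≤ n` holds for all but `o(X)` of the `n ≤ X` in the
class, then `l(n) < ∞` for all `n ≥ 1`.

(3) If `l(n) ≤ n` for all large `n` in the class, then `l(n) ≤ 2 n` for all but `M X ^ (1 - c)` of all
`n ≤ X`, with some `M` and for all `X ≥ 1`.

(4) (Uniform transfer.) For every function `φ`, bounded by `1`, and all `X ≥ 1` the sum of `φ(l(n))` over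
the `n ≤ X` in the class is `ρ` times the sum over all `n ≤ X`, up to `K X ^ (1 - c)`.

(5) The `n` in the class for which `l(n)` is finite, `≡ u` modulo `r` and at most `bound x`, and for which
the number of odd terms is `≡ v` modulo `r`, have natural density `ρ δ Phi(x) / r ^ 2`.

(6) For `Λ > 3 / log (4/3)` the sum of `min (l(n), Λ log X)` over the `n ≤ X` in the class is
asymptotically `ρ (δ * 3 / log (4/3) + (1 - δ) Λ) X log X`. -/
theorem result : ∃ δ : ℝ, 0 < δ ∧ δ ≤ 1 ∧ (δ = 1 ↔ ∀ n : ℕ, 1 ≤ n → l n ≠ ⊤) ∧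
    HasDensity (fun n => l n ≠ ⊤) δ ∧
    ∀ (s : ℕ) (q m : Fin s → ℕ) (W : Fin s → ℕ → ℤ), Data q m W →
    ∃ K c : ℝ, 0 < c ∧ c < 1 ∧ ∀ a : Fin s → ℤ,
    HasDensity (fun n => InClass m W a n ∧ Exceptional n) ((∏ i, 1 / (m i : ℝ)) * (1 - δ)) ∧
    (∀ ψ : ℕ → ℝ, Tendsto ψ atTop (𝓝 0) →
      (∃ᶠ X : ℕ in atTop, count (fun n => InClass m W a n ∧ Exceptional n) X ≤ ψ X * X) →
      ∀ n : ℕ, 1 ≤ n → l n ≠ ⊤) ∧
    ((∃ N : ℕ, ∀ n : ℕ, N ≤ n → InClass m W a n → l n ≤ n) →
      ∃ M : ℝ, ∀ X : ℕ, 1 ≤ X → count (fun n => ((2 * n : ℕ) : ℕ∞) < l n) X ≤ M * (X : ℝ) ^ (1 - c)) ∧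
    (∀ φ : ℕ∞ → ℝ, (∀ t, |φ t| ≤ 1) → ∀ X : ℕ, 1 ≤ X →
      |∑ᶠ n ∈ {n : ℕ | 1 ≤ n ∧ n ≤ X ∧ InClass m W a n}, φ (l n) -
        (∏ i, 1 / (m i : ℝ)) * ∑ n ∈ Finset.Icc 1 X, φ (l n)| ≤ K * (X : ℝ) ^ (1 - c)) ∧
    (∀ (r : ℕ) (u v : ℤ) (x : ℝ), 1 ≤ r →
      HasDensity (fun n => InClass m W a n ∧ Level r u v x n) ((∏ i, 1 / (m i : ℝ)) * (δ * Phi x / r ^ 2))) ∧
    ∀ Λ : ℝ, 3 / Real.log (4 / 3) < Λ →
      Tendsto (fun X : ℕ => (∑ᶠ n ∈ {n : ℕ | 1 ≤ n ∧ n ≤ X ∧ InClass m W a n}, truncated (Λ * Real.log X) n) /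
        (X * Real.log X)) atTop (𝓝 ((∏ i, 1 / (m i : ℝ)) * (δ * (3 / Real.log (4 / 3)) + (1 - δ) * Λ))) := by
  classical
  obtain ⟨δ, hδ, h2, h3⟩ := nat2
  have hν := nu_pos'
  have hone : δ = 1 ↔ ∀ n : ℕ, 1 ≤ n → l n ≠ ⊤ := by
    rw [h2]
    refine forall₂_congr fun n _ => ?_
    rw [l_ne_top, CC_ex]
  refine ⟨δ, hδ.pos, hδ.le, hone, ?_, fun s q m W hD => ?_⟩
  · have h4 : Pool.Agent.H499R2.ND.Dn (fun n => l n ≠ ⊤) δ :=
      Pool.Agent.H499R2.LT.Dn_iff (fun n _ => by rw [l_ne_top, CC_ex]) h3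
    exact h4
  have hDD : DD 2 q m W := by
    refine ⟨fun i => (hD.odd i).1, fun i => ?_, hD.coprime, hD.additive, hD.pos, hD.free⟩
    rw [Nat.coprime_two_left]
    exact Nat.odd_iff.2 (hD.odd i).2
  obtain ⟨K, c', hK, hc0', _, hT'⟩ := cta_digits hDD
  obtain ⟨hρ0, hρ1⟩ := rho01 hD.pos
  set ρ : ℝ := ∏ i, 1 / (m i : ℝ) with hρ
  set c : ℝ := min c' (1 / 2) with hc
  have hc0 : 0 < c := lt_min hc0' (by norm_num)
  have hc1 : c ≤ 1 / 2 := min_le_right _ _
  have hT : ∀ a : Fin s → ℤ, CTA (Ed m W a) ρ K c := fun a F hF => (hT' a F hF).mono hK (min_le_left _ _)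
  refine ⟨K, c, hc0, by linarith, fun a => ?_⟩
  have hA := hT a
  have hLaw := hA.Law hρ0.le hρ1 hc0 (val := valL) (A := 3 / Real.log (4 / 3)) (b := bL) (δ := δ) (by positivity) bL_pos
    hδ.fin (nat2_law hδ)
  have hcl : ∀ n, InClass m W a n ↔ Ed m W a n := fun n => Ed_iff
  have hset : ∀ (X : ℕ) (f : ℕ → ℝ), ∑ᶠ n ∈ {n : ℕ | 1 ≤ n ∧ n ≤ X ∧ InClass m W a n}, f n =
      ∑ n ∈ Finset.Icc 1 X, ind (Ed m W a) n * f n := by
    intro X f
    rw [finsum_mem_eq_finite_toFinset_sum _ ((Set.finite_Iic X).subset fun n hn => hn.2.1)]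
    have e : ((Set.finite_Iic X).subset fun n (hn : n ∈ {n : ℕ | 1 ≤ n ∧ n ≤ X ∧ InClass m W a n}) => hn.2.1).toFinset
        = (Finset.Icc 1 X).filter (fun n => Ed m W a n) := by
      ext n
      simp only [Set.Finite.mem_toFinset, Set.mem_ofPred_eq, Finset.mem_filter, Finset.mem_Icc, hcl, and_assoc]
    rw [e, Finset.sum_filter]
    apply Finset.sum_congr rfl
    intro n _
    by_cases h : Ed m W a n
    · rw [if_pos h, ind_pos h, one_mul]
    · rw [if_neg h, ind_neg h, zero_mul]
  -- transfer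
  have htr : ∀ φ : ℕ∞ → ℝ, (∀ t, |φ t| ≤ 1) → ∀ X : ℕ, 1 ≤ X →
      |∑ n ∈ Finset.Icc 1 X, ind (Ed m W a) n * φ (l n) - ρ * ∑ n ∈ Finset.Icc 1 X, φ (l n)| ≤ K * (X : ℝ) ^ (1 - c) := by
    intro φ hφ X hX
    have h1 := hA.fg (g := fun k o => φ ((k + o : ℕ) : ℕ∞)) (g0 := φ ⊤) (fun _ _ => hφ _) (hφ _)
    have h4 := h1.tr X hX
    have e : ∀ n, Fg (fun k o => φ ((k + o : ℕ) : ℕ∞)) (φ ⊤) n = φ (l n) := by
      intro n
      by_cases h : ∃ k, H k n
      · obtain ⟨k, hk⟩ := h
        rw [Fg_H hk, l_H hk]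
      · rw [Fg_not h, l_top h]
    simp only [e] at h4
    exact h4
  have hE : HasDensity (fun n => InClass m W a n ∧ Exceptional n) (ρ * (1 - δ)) := by
    have h1 : MnS id (fun n => ind (Ed m W a) n - ind (fun n => Ed m W a n ∧ ∃ k, H k n) n) (ρ - ρ * δ) :=
      hLaw.all.sub hLaw.fin
    have h4 := bad_zero (fun n => le_refl (id n)) bL_pos hLaw one_pos
    obtain ⟨m0, hm0⟩ := (log_small (3 / Real.log (4 / 3) + 1)).exists_forall_of_atTop
    have h5 : MnS id (ind (fun n => Ed m W a n ∧ Exceptional n)) (ρ - ρ * δ) := by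
      refine MnS_close (fun n => le_refl (id n)) h1 h4 zero_le_two (fun k => ?_) (fun k => ind_nonneg _ _) (m0 := m0) ?_
      · have a1 := ind_nonneg (fun n => Ed m W a n ∧ Exceptional n) k
        have a2 := ind_le_one (fun n => Ed m W a n ∧ Exceptional n) k
        have a3 := ind_nonneg (fun n => Ed m W a n ∧ ∃ k, H k n) k
        have a4 := ind_le_one (fun n => Ed m W a n ∧ ∃ k, H k n) k
        have a5 := ind_nonneg (Ed m W a) k
        have a6 := ind_le_one (Ed m W a) k
        rw [abs_le]; constructor <;> linarith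
      · intro n hn
        by_cases hEn : Ed m W a n
        · by_cases hf : ∃ k, H k n
          · rw [ind_pos hEn, ind_pos (P := fun n => Ed m W a n ∧ ∃ k, H k n) ⟨hEn, hf⟩, sub_self, sub_zero,
              abs_of_nonneg (ind_nonneg _ _)]
            apply ind_mono
            rintro ⟨_, hex⟩
            obtain ⟨k, hk⟩ := hf
            refine ⟨hEn, k, hk, ?_⟩
            unfold Exceptional at hex
            rw [l_H hk] at hex
            have h6 : n < k + Pool.Agent.H499R2.LT.odn k n := by exact_mod_cast hex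
            have h7 : (n : ℝ) < ((k + Pool.Agent.H499R2.LT.odn k n : ℕ) : ℝ) := by exact_mod_cast h6
            have h8 := hm0 n hn
            have h9 : valL k (Pool.Agent.H499R2.LT.odn k n) = ((k + Pool.Agent.H499R2.LT.odn k n : ℕ) : ℝ) := rfl
            rw [h9]
            apply lt_of_lt_of_le _ (le_abs_self _)
            linarith
          · rw [ind_pos hEn, ind_neg (P := fun n => Ed m W a n ∧ ∃ k, H k n) (fun h => hf h.2),
              ind_pos (P := fun n => Ed m W a n ∧ Exceptional n) ⟨hEn, by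
              unfold Exceptional
              rw [l_top hf]
              exact ENat.natCast_lt_top n⟩, sub_zero, sub_self, abs_zero]
            exact ind_nonneg _ _
        · rw [ind_neg hEn, ind_neg (P := fun n => Ed m W a n ∧ ∃ k, H k n) (fun h => hEn h.1),
            ind_neg (P := fun n => Ed m W a n ∧ Exceptional n) (fun h => hEn h.1), sub_zero, sub_zero, abs_zero]
          exact ind_nonneg _ _
    have e2 : ρ - ρ * δ = ρ * (1 - δ) := by ring
    rw [e2] at h5
    exact along_of h5 (fun n => and_congr (hcl n) Iff.rfl)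
  refine ⟨hE, ?_, ?_, fun φ hφ X hX => ?_, ?_, ?_⟩
  · intro ψ hψ hfr
    rw [← hone]
    by_contra hne
    have hlt : 0 < 1 - δ := by
      have := lt_of_le_of_ne hδ.le hne
      linarith
    have hlt' : 0 < ρ * (1 - δ) := by positivity
    have e1 : ∀ᶠ X : ℕ in atTop, ψ X < ρ * (1 - δ) / 2 := hψ.eventually (gt_mem_nhds (by positivity))
    have e2 : ∀ᶠ X : ℕ in atTop, ρ * (1 - δ) / 2 < count (fun n => InClass m W a n ∧ Exceptional n) X / X :=
      hE.eventually (lt_mem_nhds (by linarith))
    obtain ⟨X, g1, g2, g3, g4⟩ := (hfr.and_eventually (e1.and (e2.and (eventually_ge_atTop 1)))).exists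
    have hX : (0 : ℝ) < X := by exact_mod_cast g4
    rw [lt_div_iff₀ hX] at g3
    nlinarith
  · rintro ⟨N, hN⟩
    -- the number of `n ≤ X` with `l(n) > X`
    have hf : ∀ X : ℕ, 1 ≤ X → ∑ n ∈ Finset.Icc 1 X, ind (fun n => (X : ℕ∞) < l n) n ≤
        (N + K) / ρ * (X : ℝ) ^ (1 - c) := by
      intro X hX
      have hXR : (1 : ℝ) ≤ X := by exact_mod_cast hX
      have h1 := htr (fun t => if (X : ℕ∞) < t then 1 else 0) (fun t => by
        split_ifs <;> simp) X hX
      have e1 : ∀ n, (if (X : ℕ∞) < l n then (1 : ℝ) else 0) = ind (fun n => (X : ℕ∞) < l n) n := by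
        intro n
        by_cases h : (X : ℕ∞) < l n
        · rw [if_pos h, ind_pos (P := fun n => (X : ℕ∞) < l n) h]
        · rw [if_neg h, ind_neg (P := fun n => (X : ℕ∞) < l n) h]
      simp only [e1] at h1
      have h4 := (abs_le.1 h1).1
      have h5 : ∑ n ∈ Finset.Icc 1 X, ind (Ed m W a) n * ind (fun n => (X : ℕ∞) < l n) n ≤ N := by
        have h6 : ∀ n ∈ Finset.Icc 1 X, ind (Ed m W a) n * ind (fun n => (X : ℕ∞) < l n) n ≤
            if n < N then 1 else 0 := by
          intro n hn
          rw [Finset.mem_Icc] at hn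
          split_ifs with h7
          · have a1 := ind_nonneg (Ed m W a) n
            have a2 := ind_le_one (Ed m W a) n
            have a3 := ind_nonneg (fun n => (X : ℕ∞) < l n) n
            have a4 := ind_le_one (fun n => (X : ℕ∞) < l n) n
            nlinarith
          · by_cases hEn : Ed m W a n
            · rw [ind_neg (P := fun n => (X : ℕ∞) < l n), mul_zero]
              intro h8
              have h9 := hN n (not_lt.1 h7) ((hcl n).2 hEn)
              have h10 : (n : ℕ∞) ≤ X := by exact_mod_cast hn.2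
              exact absurd (h9.trans h10) (not_le.2 h8)
            · rw [ind_neg hEn, zero_mul]
        refine (Finset.sum_le_sum h6).trans ?_
        rw [← Finset.sum_filter, Finset.sum_const, nsmul_eq_mul, mul_one]
        have h7 : (Finset.Icc 1 X).filter (fun n => n < N) ⊆ Finset.range N := by
          intro n hn
          rw [Finset.mem_filter] at hn
          exact Finset.mem_range.2 hn.2
        have h8 := Finset.card_le_card h7
        rw [Finset.card_range] at h8
        exact_mod_cast h8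
      have h6 : (1 : ℝ) ≤ (X : ℝ) ^ (1 - c) := Real.one_le_rpow hXR (by linarith)
      have hN0 : (0 : ℝ) ≤ N := Nat.cast_nonneg _
      have h7 : ρ * ∑ n ∈ Finset.Icc 1 X, ind (fun n => (X : ℕ∞) < l n) n ≤ (N + K) * (X : ℝ) ^ (1 - c) := by
        nlinarith
      rw [div_mul_eq_mul_div, le_div_iff₀ hρ0]
      linarith
    set D : ℝ := (N + K) / ρ with hD'
    have hN0 : (0 : ℝ) ≤ N := Nat.cast_nonneg _
    have hD0 : 0 ≤ D := by positivity
    set θ : ℝ := (1 / 2 : ℝ) ^ (1 - c) with hθ
    have hθ1 : θ < 1 := Real.rpow_lt_one (by norm_num) (by norm_num) (by linarith)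
    have hθ0 : 0 < θ := by positivity
    refine ⟨D / (1 - θ), fun X => ?_⟩
    have hM0 : 0 ≤ D / (1 - θ) := div_nonneg hD0 (by linarith)
    induction X using Nat.strong_induction_on with
    | _ X ih =>
      intro hX
      have hX0 : (0 : ℝ) ≤ X := Nat.cast_nonneg _
      have hsplit : count (fun n => ((2 * n : ℕ) : ℕ∞) < l n) X ≤
          count (fun n => ((2 * n : ℕ) : ℕ∞) < l n) (X / 2) + ∑ n ∈ Finset.Icc 1 X, ind (fun n => (X : ℕ∞) < l n) n := by
        rw [count_ind, count_ind]
        have e : Finset.Icc 1 X = Finset.Icc 1 (X / 2) ∪ Finset.Ioc (X / 2) X := by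
          ext n; simp only [Finset.mem_union, Finset.mem_Icc, Finset.mem_Ioc]; omega
        have hdis : Disjoint (Finset.Icc 1 (X / 2)) (Finset.Ioc (X / 2) X) := by
          rw [Finset.disjoint_left]
          intro n hn hn'
          rw [Finset.mem_Icc] at hn
          rw [Finset.mem_Ioc] at hn'
          omega
        have h1 : ∑ n ∈ Finset.Ioc (X / 2) X, ind (fun n => ((2 * n : ℕ) : ℕ∞) < l n) n ≤
            ∑ n ∈ Finset.Icc 1 X, ind (fun n => (X : ℕ∞) < l n) n := by
          calc _ ≤ ∑ n ∈ Finset.Ioc (X / 2) X, ind (fun n => (X : ℕ∞) < l n) n := by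
                apply Finset.sum_le_sum
                intro n hn
                rw [Finset.mem_Ioc] at hn
                apply ind_mono
                intro h4
                refine lt_of_le_of_lt ?_ h4
                have : X ≤ 2 * n := by omega
                exact_mod_cast this
            _ ≤ _ := by
                rw [e, Finset.sum_union hdis]
                have : 0 ≤ ∑ n ∈ Finset.Icc 1 (X / 2), ind (fun n => (X : ℕ∞) < l n) n :=
                  Finset.sum_nonneg fun _ _ => ind_nonneg _ _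
                linarith
        rw [show ∑ n ∈ Finset.Icc 1 X, ind (fun n => ((2 * n : ℕ) : ℕ∞) < l n) n =
          ∑ n ∈ Finset.Icc 1 (X / 2), ind (fun n => ((2 * n : ℕ) : ℕ∞) < l n) n +
          ∑ n ∈ Finset.Ioc (X / 2) X, ind (fun n => ((2 * n : ℕ) : ℕ∞) < l n) n by
            rw [← Finset.sum_union hdis, ← e]]
        linarith
      have h4 := hf X hX
      have h5 : count (fun n => ((2 * n : ℕ) : ℕ∞) < l n) (X / 2) ≤ D / (1 - θ) * (θ * (X : ℝ) ^ (1 - c)) := by
        rcases Nat.eq_zero_or_pos (X / 2) with h6 | h6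
        · rw [h6, count_ind]
          have : Finset.Icc 1 0 = (∅ : Finset ℕ) := by simp
          rw [this, Finset.sum_empty]
          positivity
        · refine (ih (X / 2) (by omega) h6).trans ?_
          apply mul_le_mul_of_nonneg_left _ hM0
          rw [hθ, ← Real.mul_rpow (by norm_num) hX0]
          apply Real.rpow_le_rpow (Nat.cast_nonneg _) _ (by linarith)
          have := @Nat.cast_div_le ℝ _ _ _ X 2
          push_cast at this
          linarith
      have h6 : D / (1 - θ) * (θ * (X : ℝ) ^ (1 - c)) + D * (X : ℝ) ^ (1 - c) = D / (1 - θ) * (X : ℝ) ^ (1 - c) := by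
        have : (1 - θ) ≠ 0 := by linarith
        field_simp
        ring
      linarith
  · rw [hset]
    exact htr φ hφ X hX
  · intro r u v x hr
    have h1 := hA.law hρ0.le hρ1 hc0 (val := valL) (cls := clsL r u v) (A := 3 / Real.log (4 / 3)) (b := bL)
      (dd := fun x => δ * Pool.Agent.H499R2.ND.Phi x / r ^ 2) (by positivity) bL_pos
      ((Pool.Agent.H499R2.ND.Phi_continuous.const_mul δ).div_const _) (hδ.lawL r u v hr) x
    have e : Pool.Agent.H499R2.ND.Phi x = Phi x := Pool.Agent.H499R2.ND.phi_cdf x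
    simp only [e] at h1
    exact along_of h1 (fun n => and_congr (hcl n) (level_iff r u v x n))
  · intro Λ hΛ
    have hf : IsTr valL truncated := by
      constructor
      · intro t n k hk
        unfold truncated
        rw [l_H hk, if_neg (ENat.natCast_ne_top _), ENat.toNat_natCast]
        rfl
      · intro t n hn
        unfold truncated
        rw [l_top hn, if_pos rfl]
    have h1 := avg (fun n => le_refl (id n)) one_pos log_id (fun _ _ => Nat.cast_nonneg _) (by positivity) bL_pos hLaw hf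
      (Λ := Λ) (by rw [mul_one]; exact hΛ)
    rw [mul_one] at h1
    have e2 : ρ * δ * (3 / Real.log (4 / 3)) + (ρ - ρ * δ) * Λ = ρ * (δ * (3 / Real.log (4 / 3)) + (1 - δ) * Λ) := by ring
    rw [e2] at h1
    refine h1.congr fun X => ?_
    rw [hset]
    congr 1
    apply Finset.sum_congr rfl
    intro n _
    by_cases h : Ed m W a n
    · rw [if_pos (show Ed m W a (id n) from h), ind_pos h, one_mul]; rfl
    · rw [if_neg (show ¬ Ed m W a (id n) from h), ind_neg h, zero_mul]

end Pool.Agent.Results.MP_e43fce_nt.DigitClassesLevels
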