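import Pool.Agent.Run7.h439.DC.Dig2
import Pool.Agent.Run7.h792.FL.Share
import Pool.Agent.Run7.h792.FL.Plain

set_option autoImplicit false

/-!
# The inequality `l(n) ≤ n` in sets of residues to large moduli

Fix `0 < ε < 1`. At the scale `N`, the values `l(n)`, `n ≤ N`, are independent, with a power saving which is
uniform, of every function of `n` modulo an odd `q` between `N ^ ε` and `N ^ (1 - ε)` whose Fourier coefficients
at the nonzero frequencies are at most `q ^ (1 / 2 + η)`. So every set of residues of this kind, for example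
the quadratic residues modulo a prime between `N ^ ε` and `N ^ (1 - ε)`, contains its proportional share of the
exceptions `n ≤ N` to `l(n) ≤ n`; if the inequality holds in such a set for all `n ≤ N`, then
`l(n) ≤ N` for all but `O(N ^ (1 - c))` of all `n ≤ N`, and if this happens for infinitely many `N`, then
every positive integer reaches `1`.

Method: the dispersion argument of `Pool.Agent.Run7.h439.DC.Orth` at a level which is a small proportion of
`log q`; the correlations of the function along the progressions modulo the powers of two are, up to `O(q)`,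
autocorrelations over whole periods, and the sum of the squares of the latter is bounded by Parseval.
-/

namespace Pool.Agent.Results.MP_e43fce_nt.FlatResidues

open Filter Topology

/-- the Collatz function -/
def C (n : ℕ) : ℕ := if n % 2 = 0 then n / 2 else 3 * n + 1

/-- the total stopping time `l(n)`, the least `k ≥ 0` with `C^k(n) = 1`, and `⊤ = ∞` if there is none -/
noncomputable def l (n : ℕ) : ℕ∞ := sInf {k : ℕ∞ | ∃ j : ℕ, C^[j] n = 1 ∧ k = j}

/-- the number of odd terms among `n, C n, ..., C^(k-1) n` -/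
def odds (k n : ℕ) : ℕ := ((Finset.range k).filter fun i => C^[i] n % 2 = 1).card

/-- `f` has period `q`, values of modulus at most `1`, and its Fourier coefficients at the nonzero
frequencies have modulus at most `q ^ (1 / 2 + η)`. -/
structure Flat (q : ℕ) (η : ℝ) (f : ℕ → ℂ) : Prop where
  bounded : ∀ n, ‖f n‖ ≤ 1
  periodic : ∀ n, f (n + q) = f n
  fourier : ∀ h : ℕ, 0 < h → h < q →
    ‖∑ a ∈ Finset.range q, f a * Complex.exp (2 * Real.pi * Complex.I * (h * a) / q)‖ ≤ (q : ℝ) ^ (1 / 2 + η)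

/-- the mean value of a function with period `q` -/
noncomputable def mean (q : ℕ) (f : ℕ → ℂ) : ℂ := (∑ a ∈ Finset.range q, f a) / q

/-- `A` is a subset of `{0, ..., q - 1}`, and the indicator function of the integers which are congruent to
an element of `A` modulo `q` is `Flat`. -/
def FlatSet (q : ℕ) (η : ℝ) (A : Finset ℕ) : Prop :=
  A ⊆ Finset.range q ∧ Flat q η (fun n => if n % q ∈ A then 1 else 0)

/-- `q` is odd and `N ^ ε ≤ q ≤ N ^ (1 - ε)`. -/
def InRange (ε : ℝ) (N q : ℕ) : Prop := Odd q ∧ (N : ℝ) ^ ε ≤ q ∧ (q : ℝ) ≤ (N : ℝ) ^ (1 - ε)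

/-- the number of the `n` with `1 ≤ n ≤ X` and the property `P` -/
noncomputable def count (P : ℕ → Prop) (X : ℕ) : ℝ := ({n : ℕ | 1 ≤ n ∧ n ≤ X ∧ P n}.ncard : ℝ)

/-- the positive integers with the property `P` have the natural density `d` -/
def HasDensity (P : ℕ → Prop) (d : ℝ) : Prop := Tendsto (fun N : ℕ => count P N / N) atTop (𝓝 d)

/-- `3 / log (4/3) * log n + x * log 6 * √(2 log n / (log (4/3))^3)` -/
noncomputable def bound (x : ℝ) (n : ℕ) : ℝ :=
  3 / Real.log (4 / 3) * Real.log n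
    + x * (Real.log 6 * Real.sqrt (2 * Real.log n / Real.log (4 / 3) ^ 3))

/-- The distribution function of the standard normal law. -/
noncomputable def Phi (x : ℝ) : ℝ :=
  ProbabilityTheory.cdf (ProbabilityTheory.gaussianReal 0 1) x

/-- `l(n)` is finite, at most `bound x n` and congruent to `u` modulo `r`, and the number of odd terms of
the trajectory before `1` is reached is congruent to `v` modulo `r`. -/
def Level (r : ℕ) (u v : ℤ) (x : ℝ) (n : ℕ) : Prop :=
  ∃ t : ℕ, l n = t ∧ (t : ℝ) ≤ bound x n ∧ (t : ℤ) ≡ u [ZMOD r] ∧ (odds t n : ℤ) ≡ v [ZMOD r]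

/-- `n` is an exception to the inequality `l(n) ≤ n`. -/
def Exceptional (n : ℕ) : Prop := (n : ℕ∞) < l n

open Pool.Agent.H499R2.HL Pool.Agent.Y965.PL Pool.Agent.Run7.h792.FL
open Pool.Agent.Run7.h439.DC (ind_and nat2_law)

theorem C_eq : C = Pool.Agent.H499R2.ND.CC := by funext a; rfl

theorem l_eq {n t : ℕ} (h : Ts n t) : l n = t := by
  unfold l
  rw [C_eq]
  apply le_antisymm
  · exact sInf_le ⟨t, h.1, rfl⟩
  · refine le_sInf ?_
    rintro j ⟨i, hi, rfl⟩
    have : t ≤ i := by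
      by_contra hlt
      exact h.2 i (by omega) hi
    exact_mod_cast this

theorem l_top {n : ℕ} (h : ¬ ∃ k, H k n) : l n = ⊤ := by
  unfold l
  rw [C_eq]
  have : {k : ℕ∞ | ∃ j : ℕ, Pool.Agent.H499R2.ND.CC^[j] n = 1 ∧ k = j} = ∅ := by
    rw [Set.eq_empty_iff_forall_notMem]
    rintro k ⟨j, hj, _⟩
    exact h (CC_ex.1 ⟨j, hj⟩)
  rw [this, sInf_empty]

theorem l_H {n k : ℕ} (h : H k n) : l n = ((k + Pool.Agent.H499R2.LT.odn k n : ℕ) : ℕ∞) :=
  l_eq (Ts_of_H h).1

theorem l_ne_top {n : ℕ} : l n ≠ ⊤ ↔ ∃ k, H k n := by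
  constructor
  · intro h
    by_contra hcon
    exact h (l_top hcon)
  · rintro ⟨k, hk⟩
    rw [l_H hk]
    exact ENat.natCast_ne_top _

theorem l_iff {n t : ℕ} : l n = t ↔ Ts n t := by
  constructor
  · intro h
    obtain ⟨k, hk⟩ := l_ne_top.1 (show l n ≠ ⊤ by rw [h]; exact ENat.natCast_ne_top t)
    have h1 := l_H hk
    rw [h] at h1
    have h2 : t = k + Pool.Agent.H499R2.LT.odn k n := by exact_mod_cast h1
    rw [h2]; exact (Ts_of_H hk).1
  · exact l_eq

theorem level_iff (m : ℕ) (a b : ℤ) (x : ℝ) (n : ℕ) : Level m a b x n ↔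
    Lv valL (clsL m a b) (th (3 / Real.log (4 / 3)) bL x) n := by
  have h := level_iff_C m a b x n
  rw [true_and] at h
  rw [← h]
  unfold Level
  refine exists_congr fun t => ?_
  rw [l_iff]
  have e : odds t n = Pool.Agent.H499R2.LT.ocn t n := by
    unfold odds Pool.Agent.H499R2.LT.ocn
    rw [C_eq]
  rw [e]
  constructor
  · rintro ⟨h1, h2, h3, h4⟩; exact ⟨h2, h1, h3, h4⟩
  · rintro ⟨h1, h2, h3, h4⟩; exact ⟨h2, h1, h3, h4⟩

theorem count_ind (P : ℕ → Prop) (X : ℕ) : count P X = ∑ n ∈ Finset.Icc 1 X, ind P n := by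
  classical
  unfold ind count
  rw [Finset.sum_boole]
  have e : {n : ℕ | 1 ≤ n ∧ n ≤ X ∧ P n} = ((Finset.Icc 1 X).filter fun n => P n : Finset ℕ) := by
    ext n
    simp only [Set.mem_ofPred_eq, Finset.coe_filter, Finset.mem_Icc, and_assoc]
  rw [e, Set.ncard_coe_finset]

/-- THE TOTAL STOPPING TIME `l` IN SETS OF RESIDUES TO LARGE MODULI. The positive integers with `l(n) < ∞` have
a positive natural density `δ`, and `δ = 1` if and only if all are of this kind. For every `0 < ε < 1` there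
are `η`, `c`, `K > 0` with the following properties; `N ≥ 1`, and `q` is odd with `N ^ ε ≤ q ≤ N ^ (1 - ε)`.

(1) (Uniform transfer.) For every `f` with period `q` and modulus at most `1` whose Fourier coefficients at
the nonzero frequencies are at most `q ^ (1 / 2 + η)`, for every function `φ` bounded by `1` and all `X ≤ N` the
sum over the `n ≤ X` of `φ(l(n))` times `f(n)` minus the mean value of `f` has modulus at most
`K N ^ (1 - c)`.

(2) Let `0 ≤ v < c` and `τ > 0`. For all large `N`, all `q` and all flat `A` with `|A| ≥ q N ^ (-v)` the number of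
the exceptions `n ≤ N` to `l(n) ≤ n` in the classes of `A` is `(1 - δ) |A| / q * N` up to `τ |A| / q * N`.

(3) If for some `0 ≤ v < c` and infinitely many `N` there are `q` and a flat `A` with `|A| ≥ q N ^ (-v)` in the
classes of which `l(n) ≤ n` for all but `o(|A| / q * N)` of the `n ≤ N`, then `l(n) < ∞` for all `n ≥ 1`.

(4) If `|A| ≥ q N ^ (-v)`, `v ≥ 0`, and `l(n) ≤ n` for all `n ≤ N` in the classes of the flat set `A`, then
`l(n) ≤ N` for all but `K N ^ (1 - c + v)` of all `n ≤ N`.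

(5) As in (2), the `n ≤ N` in the classes of `A` for which `l(n)` is finite, `≡ a` modulo `r` and at most
`bound x`, and for which the number of odd terms is `≡ b` modulo `r`, are
`δ Phi(x) / r ^ 2 * |A| / q * N` in number up to `τ |A| / q * N`.

(6) (Examples.) The hypothesis on `f` holds for the primitive Dirichlet characters modulo `q`, for
`exp (2 π i (a n ^ 2 + b n) / q)` with `a` coprime to `q`, and the hypothesis on `A` holds if `q = p` is prime and `A`
is invariant under multiplication by the `k`-th powers coprime to `p`, where `k + 1 ≤ p ^ (2 η)`. -/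
theorem result : ∃ δ : ℝ, 0 < δ ∧ δ ≤ 1 ∧ (δ = 1 ↔ ∀ n : ℕ, 1 ≤ n → l n ≠ ⊤) ∧
    HasDensity (fun n => l n ≠ ⊤) δ ∧
    ∀ ε : ℝ, 0 < ε → ε < 1 → ∃ η c K : ℝ, 0 < η ∧ 0 < c ∧ c < 1 ∧ 0 < K ∧
    (∀ N q : ℕ, 1 ≤ N → InRange ε N q → ∀ f : ℕ → ℂ, Flat q η f →
      ∀ φ : ℕ∞ → ℝ, (∀ t, |φ t| ≤ 1) → ∀ X : ℕ, X ≤ N →
      ‖∑ n ∈ Finset.Icc 1 X, (φ (l n) : ℂ) * (f n - mean q f)‖ ≤ K * (N : ℝ) ^ (1 - c)) ∧
    (∀ v : ℝ, 0 ≤ v → v < c → ∀ τ : ℝ, 0 < τ → ∃ N₀ : ℕ, ∀ N : ℕ, N₀ ≤ N → ∀ q : ℕ, InRange ε N q →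
      ∀ A : Finset ℕ, FlatSet q η A → (q : ℝ) * (N : ℝ) ^ (-v) ≤ A.card →
      |count (fun n => n % q ∈ A ∧ Exceptional n) N - (1 - δ) * (A.card / q * N)| ≤ τ * (A.card / q * N)) ∧
    (∀ v : ℝ, 0 ≤ v → v < c → ∀ ψ : ℕ → ℝ, Tendsto ψ atTop (𝓝 0) →
      (∃ᶠ N : ℕ in atTop, ∃ q : ℕ, InRange ε N q ∧ ∃ A : Finset ℕ, FlatSet q η A ∧
        (q : ℝ) * (N : ℝ) ^ (-v) ≤ A.card ∧ count (fun n => n % q ∈ A ∧ Exceptional n) N ≤ ψ N * (A.card / q * N)) →
      ∀ n : ℕ, 1 ≤ n → l n ≠ ⊤) ∧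
    (∀ N q : ℕ, 1 ≤ N → InRange ε N q → ∀ A : Finset ℕ, FlatSet q η A → ∀ v : ℝ, 0 ≤ v →
      (q : ℝ) * (N : ℝ) ^ (-v) ≤ A.card → (∀ n : ℕ, 1 ≤ n → n ≤ N → n % q ∈ A → l n ≤ n) →
      count (fun n => (N : ℕ∞) < l n) N ≤ K * (N : ℝ) ^ (1 - c + v)) ∧
    (∀ (r : ℕ) (a b : ℤ) (x : ℝ), 1 ≤ r → ∀ v : ℝ, 0 ≤ v → v < c → ∀ τ : ℝ, 0 < τ → ∃ N₀ : ℕ, ∀ N : ℕ, N₀ ≤ N →
      ∀ q : ℕ, InRange ε N q → ∀ A : Finset ℕ, FlatSet q η A → (q : ℝ) * (N : ℝ) ^ (-v) ≤ A.card →
      |count (fun n => n % q ∈ A ∧ Level r a b x n) N - δ * Phi x / r ^ 2 * (A.card / q * N)| ≤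
        τ * (A.card / q * N)) ∧
    (∀ (q : ℕ) (χ : DirichletCharacter ℂ q), 1 ≤ q → χ.IsPrimitive → Flat q η (fun n => χ n)) ∧
    (∀ (q : ℕ) (a b : ℤ), Odd q → IsCoprime a q →
      Flat q η (fun n => Complex.exp (2 * Real.pi * Complex.I * (a * n ^ 2 + b * n) / q))) ∧
    (∀ p k : ℕ, p.Prime → 1 ≤ k → (k : ℝ) + 1 ≤ (p : ℝ) ^ (2 * η) → ∀ A : Finset ℕ, A ⊆ Finset.range p →
      (∀ b : ℕ, Nat.Coprime b p → ∀ a ∈ A, b ^ k * a % p ∈ A) → FlatSet p η A) := by
  classical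
  obtain ⟨δ, hδ, h2, h3⟩ := nat2
  have hν := nu_pos'
  have hone : δ = 1 ↔ ∀ n : ℕ, 1 ≤ n → l n ≠ ⊤ := by
    rw [h2]
    refine forall₂_congr fun n _ => ?_
    rw [l_ne_top, CC_ex]
  refine ⟨δ, hδ.pos, hδ.le, hone, ?_, fun ε hε hε1 => ?_⟩
  · have h4 : Pool.Agent.H499R2.ND.Dn (fun n => l n ≠ ⊤) δ :=
      Pool.Agent.H499R2.LT.Dn_iff (fun n _ => by rw [l_ne_top, CC_ex]) h3
    exact h4
  obtain ⟨η, c, K₀, hη, hc0, hc1, hK₀, S⟩ := tsa hε hε1
  have hFl : ∀ {q : ℕ} {f : ℕ → ℂ}, Flat q η f → FlatP q η f := fun h => ⟨h.1, h.2, h.3⟩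
  have hlF : ∀ {q : ℕ} {f : ℕ → ℂ}, FlatP q η f → Flat q η f := fun h => ⟨h.1, h.2, h.3⟩
  have hFs : ∀ {q : ℕ} {A : Finset ℕ}, FlatSet q η A → FlatI q η A := fun h => ⟨h.1, hFl h.2⟩
  have hcnt : ∀ (E P : ℕ → Prop) (X : ℕ), count (fun n => E n ∧ P n) X = ∑ n ∈ Finset.Icc 1 X, ind E n * ind P n := by
    intro E P X
    rw [count_ind]
    apply Finset.sum_congr rfl
    intro n _
    exact ind_and _ _ n
  have hrho : ∀ {N q : ℕ} {A : Finset ℕ} {v : ℝ}, Odd q → (q : ℝ) * (N : ℝ) ^ (-v) ≤ A.card → (N : ℝ) ^ (-v) ≤ (A.card / q : ℝ) := by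
    intro N q A v hq h
    have hq0 : 0 < q := hq.pos
    have hqr : (0 : ℝ) < q := by exact_mod_cast hq0
    rw [le_div_iff₀ hqr]
    linarith
  have hrho1 : ∀ {q : ℕ} {A : Finset ℕ}, Odd q → A ⊆ Finset.range q → (A.card / q : ℝ) ≤ 1 := by
    intro q A hq hA
    have hq0 : 0 < q := hq.pos
    have hqr : (0 : ℝ) < q := by exact_mod_cast hq0
    rw [div_le_one hqr]
    have := Finset.card_le_card hA
    rw [Finset.card_range] at this
    exact_mod_cast this
  have hfgl : ∀ φ : ℕ∞ → ℝ, ∀ n, Fg (fun k o => φ ((k + o : ℕ) : ℕ∞)) (φ ⊤) n = φ (l n) := by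
    intro φ n
    by_cases h : ∃ k, H k n
    · obtain ⟨k, hk⟩ := h
      rw [Fg_H hk, l_H hk]
    · rw [Fg_not h, l_top h]
  have hexc : ∀ n, Exceptional n ↔ Exc (fun k o => k + o) n := by
    intro n
    unfold Exceptional Exc
    constructor
    · rintro h ⟨k, hk, hle⟩
      rw [l_H hk] at h
      have : n < k + Pool.Agent.H499R2.LT.odn k n := by exact_mod_cast h
      have hle' : k + Pool.Agent.H499R2.LT.odn k n ≤ n := hle
      omega
    · intro h
      by_cases hn : ∃ k, H k n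
      · obtain ⟨k, hk⟩ := hn
        rw [l_H hk]
        by_contra hcon
        rw [not_lt] at hcon
        have : k + Pool.Agent.H499R2.LT.odn k n ≤ n := by exact_mod_cast hcon
        exact h ⟨k, hk, this⟩
      · rw [l_top hn]
        exact ENat.natCast_lt_top n
  have hlaw : ∀ x, Mn (ind (Lv (fun k o => (((fun k o => k + o) k o : ℕ) : ℝ)) (fun _ _ => True)
      (th (3 / Real.log (4 / 3)) bL x))) (δ * Pool.Agent.H499R2.ND.Phi x) := by
    intro x
    have h5 := nat2_law hδ x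
    have e : ind (fun n => True ∧ Lv valL (fun _ _ => True) (th (3 / Real.log (4 / 3)) bL x) n) =
        ind (Lv (fun k o => (((fun k o => k + o) k o : ℕ) : ℝ)) (fun _ _ => True) (th (3 / Real.log (4 / 3)) bL x)) := by
      funext n
      apply ind_congr
      rw [true_and]
      exact Iff.rfl
    rw [e] at h5
    exact h5
  have hA0 : (0 : ℝ) < 3 / Real.log (4 / 3) := div_pos (by norm_num) hν
  have hex : ∀ v : ℝ, 0 ≤ v → v < c → ∀ τ : ℝ, 0 < τ → ∃ N₀ : ℕ, ∀ N : ℕ, N₀ ≤ N → ∀ q : ℕ, InRange ε N q →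
      ∀ A : Finset ℕ, FlatSet q η A → (q : ℝ) * (N : ℝ) ^ (-v) ≤ A.card →
      |count (fun n => n % q ∈ A ∧ Exceptional n) N - (1 - δ) * (A.card / q * N)| ≤ τ * (A.card / q * N) := by
    intro v hv0 hv τ hτ
    have h6 := exc (V := fun k o => k + o) hA0 hδ.pos hδ.fin hlaw hK₀ hv hc1.le hτ
    obtain ⟨N₀, hN₀⟩ := h6.exists_forall_of_atTop
    refine ⟨max N₀ 1, fun N hN q hq A hA hcard => ?_⟩
    have h7 := hN₀ N ((le_max_left _ _).trans hN) (fun n => n % q ∈ A) (A.card / q) (hrho hq.1 hcard) (hrho1 hq.1 hA.1)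
      ((S.set ((le_max_right _ _).trans hN) hq.1 hq.2.1 hq.2.2 (hFs hA)).1)
    have e : ind Exceptional = ind (Exc (fun k o => k + o)) := by
      funext n; exact ind_congr (hexc n)
    rw [hcnt, e]
    exact h7
  refine ⟨η, c, K₀ + 1, hη, hc0, hc1, by linarith, ?_, hex, ?_, ?_, ?_, ?_, ?_, ?_⟩
  · intro N q hN hq f hf φ hφ X hX
    have h1 := async_Fg (g := fun k o => φ ((k + o : ℕ) : ℕ∞)) (g0 := φ ⊤) (fun _ _ => hφ _) (hφ _)
    have h4 := (S.fun hN hq.1 hq.2.1 hq.2.2 (hFl hf) h1 hX).1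
    simp only [Int.toNat_natCast, hfgl] at h4
    refine h4.trans ?_
    have : 0 ≤ (N : ℝ) ^ (1 - c) := by positivity
    nlinarith
  · intro v hv0 hv ψ hψ hfreq
    have hδ1 : δ = 1 := by
      by_contra hne
      have hlt : δ < 1 := lt_of_le_of_ne hδ.le hne
      obtain ⟨N₀, hN₀⟩ := hex v hv0 hv ((1 - δ) / 2) (by linarith)
      have hψ' := hψ.eventually (gt_mem_nhds (show (0 : ℝ) < (1 - δ) / 4 by linarith))
      obtain ⟨N, ⟨q, hq, A, hA, hcard, hfew⟩, hN, hψN⟩ :=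
        (hfreq.and_eventually ((eventually_ge_atTop (max N₀ 1)).and hψ')).exists
      have h5 := hN₀ N ((le_max_left _ _).trans hN) q hq A hA hcard
      have hN1 : (1 : ℝ) ≤ N := by exact_mod_cast (le_max_right _ _).trans hN
      have hρ := hrho (v := v) hq.1 hcard
      have hρ0 : 0 < (A.card / q : ℝ) := lt_of_lt_of_le (by positivity) hρ
      have h6 : 0 < (A.card / q : ℝ) * N := by positivity
      have h7 := (abs_le.1 h5).1
      nlinarith
    exact hone.1 hδ1
  · intro N q hN hq A hA v hv hcard hall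
    have h1 := ((S.set hN hq.1 hq.2.1 hq.2.2 (hFs hA)).1).fg
      (g := fun k o => if (N : ℕ∞) < ((k + o : ℕ) : ℕ∞) then 1 else 0) (g0 := if (N : ℕ∞) < (⊤ : ℕ∞) then 1 else 0)
      (fun _ _ => by split_ifs <;> simp) (by split_ifs <;> simp)
    have h4 := h1.tr N le_rfl
    have e : ∀ n, Fg (fun k o => if (N : ℕ∞) < ((k + o : ℕ) : ℕ∞) then 1 else 0) (if (N : ℕ∞) < (⊤ : ℕ∞) then 1 else 0) n =
        ind (fun n => (N : ℕ∞) < l n) n := by
      intro n
      rw [hfgl (fun t => if (N : ℕ∞) < t then 1 else 0) n]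
      by_cases h : (N : ℕ∞) < l n
      · rw [if_pos h, ind_pos (P := fun n => (N : ℕ∞) < l n) h]
      · rw [if_neg h, ind_neg (P := fun n => (N : ℕ∞) < l n) h]
    simp only [e] at h4
    have h5 : ∑ n ∈ Finset.Icc 1 N, ind (fun n => n % q ∈ A) n * ind (fun n => (N : ℕ∞) < l n) n = 0 := by
      apply Finset.sum_eq_zero
      intro n hn
      rw [Finset.mem_Icc] at hn
      by_cases h7 : n % q ∈ A
      · rw [ind_neg (P := fun n => (N : ℕ∞) < l n), mul_zero]
        have h8 := hall n hn.1 hn.2 h7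
        rw [not_lt]
        refine h8.trans ?_
        exact_mod_cast hn.2
      · rw [ind_neg (P := fun n => n % q ∈ A) h7, zero_mul]
    rw [h5, ← count_ind] at h4
    have h7 := (abs_le.1 h4).1
    have hN0 : (0 : ℝ) < N := by exact_mod_cast hN
    have hρ := hrho (v := v) hq.1 hcard
    have hc0' : 0 ≤ count (fun n => (N : ℕ∞) < l n) N := by unfold count; positivity
    have h8 : (N : ℝ) ^ (-v) * count (fun n => (N : ℕ∞) < l n) N ≤ K₀ * (N : ℝ) ^ (1 - c) := by
      have := mul_le_mul_of_nonneg_right hρ hc0'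
      linarith
    have h9 : (N : ℝ) ^ v * ((N : ℝ) ^ (-v) * count (fun n => (N : ℕ∞) < l n) N) ≤ (N : ℝ) ^ v * (K₀ * (N : ℝ) ^ (1 - c)) :=
      mul_le_mul_of_nonneg_left h8 (by positivity)
    have e1 : (N : ℝ) ^ v * ((N : ℝ) ^ (-v) * count (fun n => (N : ℕ∞) < l n) N) = count (fun n => (N : ℕ∞) < l n) N := by
      rw [← mul_assoc, ← Real.rpow_add hN0, add_neg_cancel, Real.rpow_zero, one_mul]
    have e2 : (N : ℝ) ^ v * (K₀ * (N : ℝ) ^ (1 - c)) = K₀ * (N : ℝ) ^ (1 - c + v) := by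
      rw [Real.rpow_add hN0]; ring
    rw [e1, e2] at h9
    refine h9.trans ?_
    have : 0 ≤ (N : ℝ) ^ (1 - c + v) := by positivity
    nlinarith
  · intro r a b x hr v hv0 hv τ hτ
    have h5 := hδ.lawL r a b hr x
    have e : ind (fun n => True ∧ Lv valL (clsL r a b) (th (3 / Real.log (4 / 3)) bL x) n) =
        ind (Lv (fun k o => (((fun k o => k + o) k o : ℕ) : ℝ)) (clsL r a b) (th (3 / Real.log (4 / 3)) bL x)) := by
      funext n
      apply ind_congr
      rw [true_and]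
      exact Iff.rfl
    rw [e] at h5
    have h6 := law (V := fun k o => k + o) hA0 h5 hK₀ hv hc1.le hτ
    obtain ⟨N₀, hN₀⟩ := h6.exists_forall_of_atTop
    refine ⟨max N₀ 1, fun N hN q hq A hA hcard => ?_⟩
    have h7 := hN₀ N ((le_max_left _ _).trans hN) (fun n => n % q ∈ A) (A.card / q) (hrho hq.1 hcard) (hrho1 hq.1 hA.1)
      ((S.set ((le_max_right _ _).trans hN) hq.1 hq.2.1 hq.2.2 (hFs hA)).1)
    have e2 : Pool.Agent.H499R2.ND.Phi x = Phi x := Pool.Agent.H499R2.ND.phi_cdf x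
    rw [e2] at h7
    have e3 : ind (fun n => Level r a b x n) =
        ind (Lv (fun k o => (((fun k o => k + o) k o : ℕ) : ℝ)) (clsL r a b) (th (3 / Real.log (4 / 3)) bL x)) := by
      funext n; exact ind_congr (level_iff r a b x n)
    rw [hcnt, e3]
    exact h7
  · intro q χ hq hχ
    exact hlF (flatP_char hq hη.le hχ)
  · intro q a b hq hab
    exact hlF (flatP_quad hη.le hq hab b)
  · intro p k hp hk hkp A hA h
    have h5 := flatI_pow hp hk hkp hA h
    exact ⟨h5.1, hlF h5.2⟩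

end Pool.Agent.Results.MP_e43fce_nt.FlatResidues
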