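import Pool.Agent.Run7.h702.BC.M

set_option autoImplicit false

/-!
# The total stopping times of all the terms of almost every Collatz trajectory

Let `C` be the Collatz function, `l(n)` the total stopping time, and let `G` be any function which tends to infinity,
however slowly.

(1) For almost all `n` (natural density one): if `l(n)` is finite, then EVERY term `x ≥ G n` of the trajectory of `n`
satisfies `|l(x) - (3 / log (4/3)) log x| ≤ ε log x`, so that `l(x) ≤ x`: the inequality of the question holds for all the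
terms, not only for `n`, down to any bound which tends to infinity; an integer `x` with `l(x) > x` does not occur in the
trajectories of almost all `n` above `G n`. Moreover

  `C^k x < x` for all `k ≥ (κ + ε) log log x`, `κ = (1 + log 2 / log 3) / (log 2 - h (log 2 / log 3)) < 48`

(`h` the binary entropy): the term `x` is larger than all the terms which come after `(κ + ε) log log x` steps.

(2) The same without the hypothesis that `l(n)` is finite, for all but `K N / (log Y)^δ` of the `n ≤ N`, for all `Y` and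
`N`, and for the trajectory of `n` down to its first value smaller than `Y`.

(3) The constant `κ` is exact: for almost all `n` (all but `K N exp (-(log N)^δ)` of the `n ≤ N`) the part of the
trajectory above `√n` has a term `x` which is smaller than all the next `(1 - ε) κ log log x` terms.

The proof is a Borel-Cantelli lemma for the successive scales of a trajectory (`Run7/h702/AT`, `BC`), from the mixing of
the Syracuse random variables in natural density (starting libraries `H499R2`, `R344/TH`).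
-/

namespace Pool.Agent.Results.MP_e43fce_nt.LevelsOfAllTerms

open Filter Topology

/-- The Collatz function. -/
def C (n : ℕ) : ℕ := if n % 2 = 0 then n / 2 else 3 * n + 1

/-- `l` is the total stopping time `l(n)` of `n`. -/
def IsLevel (n l : ℕ) : Prop := C^[l] n = 1 ∧ ∀ j < l, C^[j] n ≠ 1

/-- The number of the `n`, `1 ≤ n ≤ N`, with the property `P`. -/
noncomputable def count (P : ℕ → Prop) (N : ℕ) : ℝ := (Set.ncard {n : ℕ | 1 ≤ n ∧ n ≤ N ∧ P n} : ℝ)

/-- Almost all `n` have the property `P`: natural density one. -/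
def AlmostAll (P : ℕ → Prop) : Prop := Tendsto (fun N : ℕ => count P N / N) atTop (𝓝 1)

/-- `h (log 2 / log 3)` is the binary entropy with natural logarithms. -/
noncomputable def κ : ℝ :=
  (1 + Real.log 2 / Real.log 3) / (Real.log 2 - Real.binEntropy (Real.log 2 / Real.log 3))

/-- `C^k n` is the first value smaller than `Y`. -/
def IsEnd (Y : ℝ) (n k : ℕ) : Prop := ((C^[k] n : ℕ) : ℝ) < Y ∧ ∀ j < k, Y ≤ ((C^[j] n : ℕ) : ℝ)

/-- Every term `x = C^i n` before the first value `C^k n` smaller than `Y` (which exists) is larger than the terms `C^m x`,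
`(κ + ε) log log x ≤ m ≤ k - i`, and the number `k - i` of the steps from `x` to `C^k n` is `(3 / log (4/3)) log x` up to
`A log Y + ε log x`. -/
def AllTerms (A ε Y : ℝ) (n : ℕ) : Prop :=
  ∃ k : ℕ, IsEnd Y n k ∧ ∀ i < k,
    (∀ m : ℕ, i + m ≤ k → (κ + ε) * Real.log (Real.log (C^[i] n : ℕ)) ≤ m → C^[i + m] n < C^[i] n) ∧
    |((k - i : ℕ) : ℝ) - 3 / Real.log (4 / 3) * Real.log (C^[i] n : ℕ)| ≤ A * Real.log Y + ε * Real.log (C^[i] n : ℕ)

/-- A term `x = C^i n` is smaller than all the next `m ≥ c log log x` terms, and all the terms up to there are `≥ Y`. -/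
def HasLateDescent (c Y : ℝ) (n : ℕ) : Prop :=
  ∃ i m : ℕ, c * Real.log (Real.log (C^[i] n : ℕ)) ≤ m ∧ (∀ j ≤ i + m, Y ≤ ((C^[j] n : ℕ) : ℝ)) ∧
    ∀ j : ℕ, 1 ≤ j → j ≤ m → C^[i] n < C^[i + j] n

theorem C_eq : Run7.h702.AT.col = C := rfl

theorem kap : Run7.h702.BC.κC = κ := by
  unfold Run7.h702.BC.κC Run7.h702.BC.κ₀ Run7.h702.BC.rate κ
  ring

theorem c3_eq : Run7.h702.BC.c3 = 3 / Real.log (4 / 3) := by
  unfold Run7.h702.BC.c3 Run7.h702.BC.mu
  have h4 : Real.log 4 = 2 * Real.log 2 := by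
    rw [show (4 : ℝ) = 2 ^ 2 by norm_num, Real.log_pow]; norm_num
  rw [Real.log_div (by norm_num) (by norm_num), h4]
  congr 1
  ring

theorem kap_lt : κ < 48 := by
  have h1 := Run7.h702.BC.κ₀_lt
  have h2 := Run7.h702.BC.κ₀_pos
  rw [← kap]
  unfold Run7.h702.BC.κC
  have h3 : Real.log 2 / Real.log 3 < 0.64 := by
    rw [div_lt_iff₀ (Real.log_pos (by norm_num))]
    have h5 := Real.log_two_lt_d9
    have h6 : (1.0986 : ℝ) < Real.log 3 := by
      have := Real.log_three_gt_d9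
      linarith
    linarith
  nlinarith

theorem all_of {ε Y : ℝ} {n : ℕ} (h1 : Run7.h702.BC.StopC (Run7.h702.BC.κC + ε) Y n)
    (h2 : Run7.h702.BC.LevC (3 * Run7.h702.BC.c3 + 2) ε Y n) :
    AllTerms (9 / Real.log (4 / 3) + 2) ε Y n := by
  obtain ⟨k, a1, a2, a3⟩ := h1
  obtain ⟨k', b1, b2, b3⟩ := h2
  have hk : k' = k := by
    rcases lt_trichotomy k' k with h | h | h
    · have := a2 k' h
      linarith
    · exact h
    · have := b2 k h
      linarith
  subst hk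
  refine ⟨k', ⟨a1, a2⟩, fun i hi => ⟨fun m hm hc => ?_, ?_⟩⟩
  · refine a3 i hi m hm ?_
    rw [kap]
    exact hc
  · have := b3 i hi
    rw [c3_eq] at this
    have e : 3 * (3 / Real.log (4 / 3)) + 2 = 9 / Real.log (4 / 3) + 2 := by ring
    rw [e] at this
    exact this

theorem part2 {ε : ℝ} (hε0 : 0 < ε) (hε : ε ≤ 1) : ∃ A δ K : ℝ, 0 < A ∧ 0 < δ ∧ 0 < K ∧ ∀ Y : ℝ, 2 ≤ Y → ∀ N : ℕ,
    count (fun n => ¬ AllTerms A ε Y n) N ≤ K * N / (Real.log Y) ^ δ := by
  classical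
  obtain ⟨δ₁, K₁, hδ₁, hK₁, h1⟩ := Run7.h702.BC.StopC_count hε0
  obtain ⟨δ₂, K₂, hδ₂, hK₂, h2⟩ := Run7.h702.BC.LevC_count hε0 hε
  have hl43 : 0 < Real.log (4 / 3) := Real.log_pos (by norm_num)
  refine ⟨9 / Real.log (4 / 3) + 2, min δ₁ δ₂, (K₁ + K₂) * (2 ^ (max δ₁ δ₂)), by positivity, by positivity,
    by positivity, fun Y hY N => ?_⟩
  have hsub : {n : ℕ | 1 ≤ n ∧ n ≤ N ∧ ¬ AllTerms (9 / Real.log (4 / 3) + 2) ε Y n} ⊆
      {n : ℕ | 1 ≤ n ∧ n ≤ N ∧ ¬ Run7.h702.BC.StopC (Run7.h702.BC.κC + ε) Y n} ∪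
      {n : ℕ | 1 ≤ n ∧ n ≤ N ∧ ¬ Run7.h702.BC.LevC (3 * Run7.h702.BC.c3 + 2) ε Y n} := by
    rintro n ⟨g1, g2, g3⟩
    by_cases g4 : Run7.h702.BC.StopC (Run7.h702.BC.κC + ε) Y n
    · right
      exact ⟨g1, g2, fun g5 => g3 (all_of g4 g5)⟩
    · left
      exact ⟨g1, g2, g4⟩
  have hfin : ∀ P : ℕ → Prop, {n : ℕ | 1 ≤ n ∧ n ≤ N ∧ P n}.Finite := fun P =>
    (Set.finite_Icc 1 N).subset (fun n hn => ⟨hn.1, hn.2.1⟩)
  have h3 : count (fun n => ¬ AllTerms (9 / Real.log (4 / 3) + 2) ε Y n) N ≤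
      (Set.ncard {n : ℕ | 1 ≤ n ∧ n ≤ N ∧ ¬ Run7.h702.BC.StopC (Run7.h702.BC.κC + ε) Y n} : ℝ) +
      (Set.ncard {n : ℕ | 1 ≤ n ∧ n ≤ N ∧ ¬ Run7.h702.BC.LevC (3 * Run7.h702.BC.c3 + 2) ε Y n} : ℝ) := by
    unfold count
    exact_mod_cast (Set.ncard_le_ncard hsub ((hfin _).union (hfin _))).trans (Set.ncard_union_le _ _)
  have h4 := h1 Y hY N
  have h5 := h2 Y hY N
  -- exponents
  have hlog : Real.log 2 ≤ Real.log Y := Real.log_le_log (by norm_num) hY
  have hlog2 : 1 / 2 < Real.log 2 := by have := Real.log_two_gt_d9; linarith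
  have hl0 : 0 < Real.log Y := by linarith
  have hexp : ∀ s : ℝ, min δ₁ δ₂ ≤ s → s ≤ max δ₁ δ₂ →
      1 / (Real.log Y) ^ s ≤ 2 ^ (max δ₁ δ₂) / (Real.log Y) ^ (min δ₁ δ₂) := by
    intro s hs1 hs2
    have hs0 : 0 < s := lt_of_lt_of_le (by positivity) hs1
    rw [div_le_div_iff₀ (by positivity) (by positivity), one_mul]
    have e1 : (1 : ℝ) ≤ (2 * Real.log Y) ^ (s - min δ₁ δ₂) := Real.one_le_rpow (by linarith) (by linarith)
    have e2 : (2 * Real.log Y) ^ (s - min δ₁ δ₂) = 2 ^ (s - min δ₁ δ₂) * (Real.log Y) ^ (s - min δ₁ δ₂) :=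
      Real.mul_rpow (by norm_num) hl0.le
    have e3 : (2 : ℝ) ^ (s - min δ₁ δ₂) ≤ 2 ^ (max δ₁ δ₂) := by
      apply Real.rpow_le_rpow_of_exponent_le (by norm_num)
      have : 0 < min δ₁ δ₂ := by positivity
      linarith
    have e4 : (Real.log Y) ^ s = (Real.log Y) ^ (min δ₁ δ₂) * (Real.log Y) ^ (s - min δ₁ δ₂) := by
      rw [← Real.rpow_add hl0]; congr 1; ring
    rw [e4]
    rw [e2] at e1
    have e5 : 0 < (Real.log Y) ^ (s - min δ₁ δ₂) := by positivity
    have e6 : 0 < (Real.log Y) ^ (min δ₁ δ₂) := by positivity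
    calc (Real.log Y) ^ (min δ₁ δ₂) = (Real.log Y) ^ (min δ₁ δ₂) * 1 := (mul_one _).symm
      _ ≤ (Real.log Y) ^ (min δ₁ δ₂) * (2 ^ (s - min δ₁ δ₂) * (Real.log Y) ^ (s - min δ₁ δ₂)) :=
          mul_le_mul_of_nonneg_left e1 e6.le
      _ ≤ (Real.log Y) ^ (min δ₁ δ₂) * (2 ^ (max δ₁ δ₂) * (Real.log Y) ^ (s - min δ₁ δ₂)) := by
          apply mul_le_mul_of_nonneg_left _ e6.le
          exact mul_le_mul_of_nonneg_right e3 e5.le
      _ = _ := by ring
  have h6 : K₁ * N / (Real.log Y) ^ δ₁ ≤ K₁ * N * (2 ^ (max δ₁ δ₂) / (Real.log Y) ^ (min δ₁ δ₂)) := by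
    have := mul_le_mul_of_nonneg_left (hexp δ₁ (min_le_left _ _) (le_max_left _ _)) (show 0 ≤ K₁ * N by positivity)
    rwa [mul_one_div] at this
  have h7 : K₂ * N / (Real.log Y) ^ δ₂ ≤ K₂ * N * (2 ^ (max δ₁ δ₂) / (Real.log Y) ^ (min δ₁ δ₂)) := by
    have := mul_le_mul_of_nonneg_left (hexp δ₂ (min_le_right _ _) (le_max_right _ _)) (show 0 ≤ K₂ * N by positivity)
    rwa [mul_one_div] at this
  calc _ ≤ K₁ * N * (2 ^ (max δ₁ δ₂) / (Real.log Y) ^ (min δ₁ δ₂)) +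
        K₂ * N * (2 ^ (max δ₁ δ₂) / (Real.log Y) ^ (min δ₁ δ₂)) := by linarith
    _ = _ := by ring

theorem part1 {ε : ℝ} (hε0 : 0 < ε) (hε : ε ≤ 1) (G : ℕ → ℝ) (hG : Tendsto G atTop atTop) :
    AlmostAll (fun n => (∃ k, C^[k] n = 1) → ∀ i : ℕ, G n ≤ ((C^[i] n : ℕ) : ℝ) →
      (∃ l : ℕ, IsLevel (C^[i] n) l ∧ l ≤ C^[i] n ∧
        |(l : ℝ) - 3 / Real.log (4 / 3) * Real.log (C^[i] n : ℕ)| ≤ ε * Real.log (C^[i] n : ℕ)) ∧
      ∀ k : ℕ, (κ + ε) * Real.log (Real.log (C^[i] n : ℕ)) ≤ k → C^[i + k] n < C^[i] n) := by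
  classical
  obtain ⟨A, δ, K, hA, hδ, hK, h⟩ := part2 (ε := ε / 2) (by linarith) (by linarith)
  have hl43 : 0 < Real.log (4 / 3) := Real.log_pos (by norm_num)
  refine Run7.h702.BC.density_imp (D := fun Y n => AllTerms A (ε / 2) Y n) hδ h (fun Y hY => ?_)
  obtain ⟨B, hB⟩ := Run7.h702.BC.small_bound Y
  have hY0 : 0 < Y := by linarith
  have hlY : 0 < Real.log Y := Real.log_pos (by linarith)
  -- large values of `G`
  have hlog : Tendsto (fun n : ℕ => Real.log (G n)) atTop atTop := Real.tendsto_log_atTop.comp hG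
  obtain ⟨c, hc⟩ : ∃ c, c = 3 / Real.log (4 / 3) + ε := ⟨_, rfl⟩
  have hc0 : 0 < c := by rw [hc]; positivity
  have hlin : ∀ᶠ x : ℝ in atTop, c * Real.log x ≤ x := by
    have h2 := Real.isLittleO_log_id_atTop.bound (show 0 < 1 / c by positivity)
    filter_upwards [h2, eventually_ge_atTop 1] with u hu hu1
    have h3 : 0 ≤ Real.log u := Real.log_nonneg hu1
    rw [Real.norm_eq_abs, abs_of_nonneg h3, id, Real.norm_eq_abs, abs_of_nonneg (by linarith)] at hu
    calc c * Real.log u ≤ c * (1 / c * u) := mul_le_mul_of_nonneg_left hu hc0.le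
      _ = u := by field_simp
  obtain ⟨x₀, hx₀⟩ := eventually_atTop.1 hlin
  obtain ⟨n₀, hn₀⟩ := eventually_atTop.1 ((hG.eventually_gt_atTop ((B : ℝ) + Y + 16)).and
    ((hG.eventually_ge_atTop x₀).and (hlog.eventually_ge_atTop (2 * (A * Real.log Y + B) / ε))))
  refine ⟨n₀, fun n hn hD hone i hi => ?_⟩
  obtain ⟨g1, g2, g3⟩ := hn₀ n hn
  obtain ⟨k, ⟨e1, e2⟩, e3⟩ := hD
  obtain ⟨x, hx⟩ : ∃ x, x = C^[i] n := ⟨_, rfl⟩
  obtain ⟨y, hy⟩ : ∃ y, y = C^[k] n := ⟨_, rfl⟩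
  rw [← hx] at hi ⊢
  have hBx : (B : ℝ) + Y + 16 < x := lt_of_lt_of_le g1 hi
  have hx0 : (0 : ℝ) < x := by
    have : (0 : ℝ) ≤ B := Nat.cast_nonneg B
    linarith
  -- `y` reaches `1`
  have hyone : ∃ l, C^[l] y = 1 := by
    obtain ⟨l, hl⟩ := hone
    rcases le_or_gt k l with h1 | h1
    · exact ⟨l - k, by rw [hy, ← Function.iterate_add_apply, Nat.sub_add_cancel h1, hl]⟩
    · have := e2 l h1
      rw [hl] at this
      push_cast at this
      linarith
  obtain ⟨b1, l, b2, b3, b4⟩ := hB y (by rw [hy]; exact e1) hyone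
  rw [C_eq] at b1 b3 b4
  -- the terms after `y` are small
  have hafter : ∀ j : ℕ, k ≤ j → C^[j] n ≤ B := by
    intro j hj
    have := b1 (j - k)
    rwa [hy, ← Function.iterate_add_apply, Nat.sub_add_cancel hj] at this
  have hik : i < k := by
    by_contra hcon
    have h1 := hafter i (not_lt.1 hcon)
    rw [← hx] at h1
    have h2 : (x : ℝ) ≤ B := by exact_mod_cast h1
    linarith
  obtain ⟨f1, f2⟩ := e3 i hik
  rw [← hx] at f1 f2
  have hyx : y = C^[k - i] x := by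
    rw [hx, ← Function.iterate_add_apply, Nat.sub_add_cancel hik.le, hy]
  have hlevel : IsLevel x ((k - i) + l) := by
    constructor
    · rw [Nat.add_comm, Function.iterate_add_apply, ← hyx]
      exact b3
    · intro j hj
      rcases lt_or_ge j (k - i) with h1 | h1
      · have h2 := e2 (i + j) (by omega)
        rw [Nat.add_comm, Function.iterate_add_apply, ← hx] at h2
        intro h3
        rw [h3] at h2
        push_cast at h2
        linarith
      · have h2 := b4 (j - (k - i)) (by omega)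
        rw [hyx, ← Function.iterate_add_apply, Nat.sub_add_cancel h1] at h2
        exact h2
  have hlogx : 2 * (A * Real.log Y + B) / ε ≤ Real.log x := by
    refine g3.trans (Real.log_le_log ?_ hi)
    have : (0 : ℝ) ≤ B := Nat.cast_nonneg B
    linarith
  rw [div_le_iff₀ hε0] at hlogx
  have hl0 : (0 : ℝ) ≤ l := Nat.cast_nonneg l
  have hlB : (l : ℝ) ≤ B := by exact_mod_cast b2
  have hbound : |(((k - i) + l : ℕ) : ℝ) - 3 / Real.log (4 / 3) * Real.log (x : ℝ)| ≤ ε * Real.log x := by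
    push_cast
    obtain ⟨r1, r2⟩ := abs_le.1 f2
    have h0 : 0 < A * Real.log Y := by positivity
    rw [abs_le]
    constructor
    · linarith
    · linarith
  refine ⟨⟨(k - i) + l, hlevel, ?_, hbound⟩, fun m hm => ?_⟩
  · have h1 := (abs_le.1 hbound).2
    have h2 := hx₀ x (g2.trans hi)
    rw [hc] at h2
    have h3 : (((k - i) + l : ℕ) : ℝ) ≤ x := by linarith
    exact_mod_cast h3
  · rcases le_or_gt (i + m) k with h1 | h1
    · refine f1 m h1 ?_
      have h2 : 0 ≤ Real.log (Real.log (x : ℝ)) := by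
        apply Real.log_nonneg
        have h3 : Real.exp 1 ≤ x := by
          have := Real.exp_one_lt_d9
          have : (0 : ℝ) ≤ B := Nat.cast_nonneg B
          linarith
        have := Real.log_le_log (Real.exp_pos 1) h3
        rwa [Real.log_exp] at this
      have h3 : (κ + ε / 2) * Real.log (Real.log (x : ℝ)) ≤ (κ + ε) * Real.log (Real.log (x : ℝ)) :=
        mul_le_mul_of_nonneg_right (by linarith) h2
      exact h3.trans hm
    · have h2 := hafter (i + m) h1.le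
      have h3 : ((C^[i + m] n : ℕ) : ℝ) ≤ B := by exact_mod_cast h2
      have h4 : ((C^[i + m] n : ℕ) : ℝ) < x := by linarith
      exact_mod_cast h4

theorem part3 {ε : ℝ} (hε0 : 0 < ε) (hε : ε < 1) : ∃ δ K : ℝ, 0 < δ ∧ 0 < K ∧ ∀ N : ℕ, 1 ≤ N →
    count (fun n => ¬ HasLateDescent ((1 - ε) * κ) (Real.sqrt n) n) N ≤ K * N * Real.exp (-(Real.log N) ^ δ) := by
  obtain ⟨K, hK, h⟩ := Run7.h702.BC.LateC_count hε0 hε
  refine ⟨ε / 8, K, by linarith, hK, fun N hN => ?_⟩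
  refine (Run7.h702.BC.ncard_mono (fun n _ hn => ?_) N).trans (h N hN)
  obtain ⟨i, m, g1, g2, g3⟩ := hn
  rw [kap] at g1
  exact ⟨i, m, g1, g2, g3⟩

theorem result :
    (∀ G : ℕ → ℝ, Tendsto G atTop atTop → ∀ ε : ℝ, 0 < ε → ε ≤ 1 →
      AlmostAll (fun n => (∃ k, C^[k] n = 1) → ∀ i : ℕ, G n ≤ ((C^[i] n : ℕ) : ℝ) →
        (∃ l : ℕ, IsLevel (C^[i] n) l ∧ l ≤ C^[i] n ∧
          |(l : ℝ) - 3 / Real.log (4 / 3) * Real.log (C^[i] n : ℕ)| ≤ ε * Real.log (C^[i] n : ℕ)) ∧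
        ∀ k : ℕ, (κ + ε) * Real.log (Real.log (C^[i] n : ℕ)) ≤ k → C^[i + k] n < C^[i] n)) ∧
    (∀ ε : ℝ, 0 < ε → ε ≤ 1 → ∃ A δ K : ℝ, 0 < A ∧ 0 < δ ∧ 0 < K ∧ ∀ Y : ℝ, 2 ≤ Y → ∀ N : ℕ,
      count (fun n => ¬ AllTerms A ε Y n) N ≤ K * N / (Real.log Y) ^ δ) ∧
    (∀ ε : ℝ, 0 < ε → ε < 1 → ∃ δ K : ℝ, 0 < δ ∧ 0 < K ∧ ∀ N : ℕ, 1 ≤ N →
      count (fun n => ¬ HasLateDescent ((1 - ε) * κ) (Real.sqrt n) n) N ≤ K * N * Real.exp (-(Real.log N) ^ δ)) ∧
    κ < 48 :=
  ⟨fun G hG ε h0 h1 => part1 h0 h1 G hG, fun ε h0 h1 => part2 h0 h1, fun ε h0 h1 => part3 h0 h1, kap_lt⟩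

end Pool.Agent.Results.MP_e43fce_nt.LevelsOfAllTerms
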