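import Mathlib
import Pool.Agent.Run7.h145.QL.L2
import Pool.Agent.Run7.h145.QL.X

set_option autoImplicit false

/-!
The total stopping times `l(n)` of the Collatz function and the exceptions `l(n) > n`, along the values of
quadratic polynomials in several variables.

The values (for example the sums of two squares) have density zero or large multiplicities; all statements
count the points of a box at which the value has the property.
-/

namespace Pool.Agent.Results.MP_e43fce_nt.QuadraticValues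

open Filter Topology Finset

/-- the Collatz function -/
def C (n : ℕ) : ℕ := if n % 2 = 0 then n / 2 else 3 * n + 1

/-- `l` is the total stopping time `l(n)` of `n` -/
def IsTotalStoppingTime (n l : ℕ) : Prop := C^[l] n = 1 ∧ ∀ j < l, C^[j] n ≠ 1

/-- the number of odd terms among `n, C n, ..., C^(k-1) n` -/
def odds (k n : ℕ) : ℕ := ((Finset.range k).filter fun i => C^[i] n % 2 = 1).card

/-- `l(n) > n`, where `l(n) = ∞` is allowed: an exception to `l(n) ≤ n`. -/
def Exception (n : ℕ) : Prop := ∀ l : ℕ, IsTotalStoppingTime n l → n < l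

/-- the positive integers with the property `P` have the natural density `δ` -/
def HasDensity (P : ℕ → Prop) (δ : ℝ) : Prop :=
  Tendsto (fun N : ℕ => ({n : ℕ | 1 ≤ n ∧ n ≤ N ∧ P n}.ncard : ℝ) / N) atTop (𝓝 δ)

/-- `3 / log (4/3) * log n + x * log 6 * √(2 log n / (log (4/3))^3)` -/
noncomputable def bound (x : ℝ) (n : ℕ) : ℝ :=
  3 / Real.log (4 / 3) * Real.log n
    + x * (Real.log 6 * Real.sqrt (2 * Real.log n / Real.log (4 / 3) ^ 3))

/-- The distribution function of the standard normal law. -/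
noncomputable def Phi (x : ℝ) : ℝ :=
  ProbabilityTheory.cdf (ProbabilityTheory.gaussianReal 0 1) x

/-- `l(n)` is finite, at most `bound x n` and `≡ a` modulo `m`, and the number of odd terms before `1`
is `≡ b` modulo `m`. -/
def Level (m : ℕ) (a b : ℤ) (x : ℝ) (n : ℕ) : Prop :=
  ∃ l : ℕ, (l : ℝ) ≤ bound x n ∧ IsTotalStoppingTime n l ∧ (l : ℤ) ≡ a [ZMOD m] ∧ (odds l n : ℤ) ≡ b [ZMOD m]

/-- The value at `x` of the quadratic polynomial with quadratic part `∑ A i j x i x j`, linear part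
`∑ l i x i` and constant term `c`. -/
def Val {k : ℕ} (A : Fin k → Fin k → ℤ) (l : Fin k → ℤ) (c : ℤ) (x : Fin k → ℤ) : ℤ :=
  ∑ i, ∑ j, A i j * x i * x j + ∑ i, l i * x i + c

/-- The quadratic form `∑ A i j x i x j` has rank at least two: the symmetric matrix
`A i j + A j i` has a minor of order two that is not zero. -/
def RankTwo {k : ℕ} (A : Fin k → Fin k → ℤ) : Prop :=
  ∃ p q r s : Fin k, (A p r + A r p) * (A q s + A s q) ≠ (A p s + A s p) * (A q r + A r q)

/-- The integral points `x` of the box `a i < x i ≤ b i` with `x ∈ D` at which the polynomial has a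
positive value with `u < value ≤ v`. -/
def Points {k : ℕ} (A : Fin k → Fin k → ℤ) (l : Fin k → ℤ) (c : ℤ) (a b : Fin k → ℤ) (u v : ℤ)
    (D : Set (Fin k → ℤ)) : Set (Fin k → ℤ) :=
  {x | (∀ i, a i < x i ∧ x i ≤ b i) ∧ (u < Val A l c x ∧ Val A l c x ≤ v) ∧ 0 < Val A l c x ∧ x ∈ D}

/-- THE FREQUENCY of the property `P` of positive integers along quadratic polynomials is `f`: for every
integral quadratic form `A` of rank at least two in `k` variables, all `B, ε > 0` and `q ≥ 1` there is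
`R₀` such that for all `R ≥ R₀`, for all polynomials with quadratic part `A`, linear coefficients at most
`B R` and constant term at most `B R ^ 2`, all boxes in `[-R, R] ^ k`, all `u`, `v` and all sets `D` of
integral points periodic modulo `q`, the number of the points `x ∈ D` of the box with a positive value
between `u` and `v` that has the property `P` is `f` times the number of all points `x ∈ D` of the box
with a positive value between `u` and `v`, up to `ε R ^ k`. -/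
def Frequency (P : ℕ → Prop) (f : ℝ) : Prop := ∀ (k : ℕ) (A : Fin k → Fin k → ℤ), RankTwo A →
  ∀ (B ε : ℝ) (q : ℕ), 0 < B → 0 < ε → 1 ≤ q → ∃ R₀ : ℕ, ∀ R : ℕ, R₀ ≤ R →
  ∀ (l : Fin k → ℤ) (c : ℤ) (a b : Fin k → ℤ), (∀ i, |(l i : ℝ)| ≤ B * R) → |(c : ℝ)| ≤ B * R ^ 2 →
  (∀ i, |a i| ≤ R ∧ |b i| ≤ R) → ∀ (u v : ℤ) (D : Set (Fin k → ℤ)),
  (∀ x y : Fin k → ℤ, (∀ i, x i ≡ y i [ZMOD q]) → (x ∈ D ↔ y ∈ D)) →
  |({x ∈ Points A l c a b u v D | P (Val A l c x).toNat}.ncard : ℝ) - f * (Points A l c a b u v D).ncard| ≤ ε * R ^ k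

theorem freq_of {P : ℕ → Prop} {f : ℝ} (h : Pool.Agent.Run7.h145.QL.QV.Fr P f) : Frequency P f :=
  Pool.Agent.Run7.h145.QL.X.of_fr h

theorem hit (n l : ℕ) (hn : 1 ≤ n) : IsTotalStoppingTime n l ↔
    ∃ k, Pool.Agent.H499R2.HL.H k n ∧ l = k + Pool.Agent.H499R2.LT.odn k n :=
  Pool.Agent.Run7.h145.QL.hitC hn

theorem fin_iff (n : ℕ) (hn : 1 ≤ n) : (∃ l, IsTotalStoppingTime n l) ↔ ∃ k, Pool.Agent.H499R2.HL.H k n := by
  constructor
  · rintro ⟨l, hl⟩
    obtain ⟨k, hk, _⟩ := (hit n l hn).1 hl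
    exact ⟨k, hk⟩
  · rintro ⟨k, hk⟩
    exact ⟨_, (hit n _ hn).2 ⟨k, hk, rfl⟩⟩

/-- THE EXCEPTIONS `l(n) > n` AND THE LIMIT LAW OF `l(n)` ALONG QUADRATIC POLYNOMIALS.
Let `δ > 0` be the natural density of the positive integers with finite `l(n)` (`δ = 1` if and only if
`l(n)` is always finite). In the sense of `Frequency` (positive values of quadratic
polynomials with quadratic part of rank at least two, at the points of boxes and of sets periodic modulo
`q`, uniformly in the lower coefficients, the box, the range of values and the periodic set):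
(1) the exceptions, i.e. the `n` with `l(n) > n` or `l(n) = ∞`, have frequency `1 - δ`, and so have the
`n` with `l(n) = ∞`;
(2) the `n` with `l(n) ≤ 3 / log (4/3) log n + x log 6 √(2 log n / (log (4/3))^3)`, `l(n) ≡ a` and number
of odd terms before `1` `≡ b` modulo `m` have frequency `δ Φ(x) / m²`, `Φ` the standard normal
distribution function;
(3) for every `η > 0` the `n` with `|l(n) / log n - 3 / log (4/3)| ≤ η` have frequency `δ`.
(4) Let the property `P` have the frequency `f` along quadratic polynomials. Then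
 (a) for every quadratic polynomial in `k` variables with quadratic part of rank at least two that takes
     a positive value, `P` holds at the proportion `f` of the points of the cubes `[-N, N] ^ k` at which
     the value is positive;
 (b) `P (x ^ 2 + y ^ 2)` holds for the proportion `f` of the integral points with `0 < x ^ 2 + y ^ 2 ≤ N`;
 (c) `P (x y)` holds for the proportion `f` of the pairs `1 ≤ x, y ≤ N`;
 (d) if `f > 0` and `β ^ 2 ≠ 4 α γ`, every large `n` has at least `κ n` representations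
     `n = α x ^ 2 + β x y + γ y ^ 2 + t` with positive `x`, `y` at most `√n` and `t` with the property `P`. -/
theorem result : ∃ δ : ℝ, 0 < δ ∧ δ ≤ 1 ∧ (δ = 1 ↔ ∀ n : ℕ, 1 ≤ n → ∃ l, IsTotalStoppingTime n l) ∧
    HasDensity (fun n => ∃ l, IsTotalStoppingTime n l) δ ∧
    Frequency Exception (1 - δ) ∧
    Frequency (fun n => ¬ ∃ l, IsTotalStoppingTime n l) (1 - δ) ∧
    (∀ (m : ℕ) (a b : ℤ) (x : ℝ), 1 ≤ m → Frequency (Level m a b x) (δ * Phi x / m ^ 2)) ∧
    (∀ η : ℝ, 0 < η → Frequency (fun n => ∃ l : ℕ, IsTotalStoppingTime n l ∧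
      |(l : ℝ) / Real.log n - 3 / Real.log (4 / 3)| ≤ η) δ) ∧
    (∀ (P : ℕ → Prop) (f : ℝ), Frequency P f →
      (∀ (k : ℕ) (A : Fin k → Fin k → ℤ), RankTwo A → ∀ (l : Fin k → ℤ) (c : ℤ) (x₀ : Fin k → ℤ),
        0 < ∑ i, ∑ j, A i j * x₀ i * x₀ j →
        Tendsto (fun N : ℕ => ({x : Fin k → ℤ | (∀ i, |x i| ≤ N) ∧ 0 < Val A l c x ∧
          P (Val A l c x).toNat}.ncard : ℝ) /
          {x : Fin k → ℤ | (∀ i, |x i| ≤ N) ∧ 0 < Val A l c x}.ncard) atTop (𝓝 f)) ∧
      Tendsto (fun N : ℕ => ({p : ℤ × ℤ | 0 < p.1 ^ 2 + p.2 ^ 2 ∧ p.1 ^ 2 + p.2 ^ 2 ≤ N ∧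
        P (p.1 ^ 2 + p.2 ^ 2).toNat}.ncard : ℝ) /
        {p : ℤ × ℤ | 0 < p.1 ^ 2 + p.2 ^ 2 ∧ p.1 ^ 2 + p.2 ^ 2 ≤ N}.ncard) atTop (𝓝 f) ∧
      Tendsto (fun N : ℕ => ({p : ℕ × ℕ | 1 ≤ p.1 ∧ 1 ≤ p.2 ∧ p.1 ≤ N ∧ p.2 ≤ N ∧
        P (p.1 * p.2)}.ncard : ℝ) / N ^ 2) atTop (𝓝 f) ∧
      (0 < f → ∀ α β γ : ℤ, β ^ 2 ≠ 4 * α * γ → ∃ κ : ℝ, 0 < κ ∧ ∃ n₀ : ℕ, ∀ n : ℕ, n₀ ≤ n →
        κ * n ≤ {p : ℤ × ℤ | (0 < p.1 ∧ p.1 ^ 2 ≤ n) ∧ (0 < p.2 ∧ p.2 ^ 2 ≤ n) ∧
          ∃ t : ℕ, 1 ≤ t ∧ P t ∧ (n : ℤ) = (α * p.1 ^ 2 + β * p.1 * p.2 + γ * p.2 ^ 2) + t}.ncard)) := by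
  obtain ⟨δ, h0, h1, h2, h3, h4, h5⟩ := Pool.Agent.Run7.h145.QL.rel_laws Pool.Agent.Run7.h145.QL.QV
  have hH : Pool.Agent.Run7.h145.QL.QV.Fr (fun n => ∃ l, IsTotalStoppingTime n l) δ :=
    Pool.Agent.Run7.h145.QL.QV.congr 1 (fun n hn => (fin_iff n hn).symm) h4
  have hll : ∀ η : ℝ, 0 < η → Pool.Agent.Run7.h145.QL.QV.Fr (fun n => ∃ l : ℕ, IsTotalStoppingTime n l ∧
      |(l : ℝ) / Real.log n - 3 / Real.log (4 / 3)| ≤ η) δ := by
    intro η hη
    have hrr := Pool.Agent.H499R2.HL.rr_pos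
    have hl6 : 0 < Real.log 6 := Real.log_pos (by norm_num)
    have h6 := Pool.Agent.Run7.h145.QL.lln Pool.Agent.Run7.h145.QL.QV (f := fun k n => ((k + Pool.Agent.H499R2.LT.odn k n : ℕ) : ℝ))
      (α := 3 / Real.log (4 / 3))
      (σ := Real.log 6 * Pool.Agent.H499R2.HL.rr) (δ := δ) (η := η) (by positivity) h0.le h1 hη (fun x => by
        have h7 := ((h5 1 0 0 le_rfl).2.2 x).2.1
        have e1 : δ / ((1 : ℕ) : ℝ) ^ 2 * Pool.Agent.H499R2.ND.Phi x = δ * Pool.Agent.H499R2.ND.Phi x := by simp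
        rw [e1] at h7
        refine Pool.Agent.Run7.h145.QL.QV.congr 0 (fun n _ => exists_congr fun k => and_congr_right fun _ => ?_) h7
        rw [← Pool.Agent.Run7.h145.QL.bc_thr]
        simp [Int.modEq_one]) h4
    refine Pool.Agent.Run7.h145.QL.QV.congr 2 (fun n hn => ?_) h6
    have hL : 0 < Real.log n := Real.log_pos (by exact_mod_cast (by omega : 1 < n))
    have e : ∀ t : ℕ, |(t : ℝ) - 3 / Real.log (4 / 3) * Real.log n| ≤ η * Real.log n ↔
        |(t : ℝ) / Real.log n - 3 / Real.log (4 / 3)| ≤ η := by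
      intro t
      have e1 : (t : ℝ) - 3 / Real.log (4 / 3) * Real.log n =
          ((t : ℝ) / Real.log n - 3 / Real.log (4 / 3)) * Real.log n := by field_simp
      rw [e1, abs_mul, abs_of_pos hL]
      exact mul_le_mul_iff_left₀ hL
    constructor
    · rintro ⟨k, hk, h8⟩
      exact ⟨_, (hit n _ (by omega)).2 ⟨k, hk, rfl⟩, (e _).1 h8⟩
    · rintro ⟨l, hl, h8⟩
      obtain ⟨k, hk, rfl⟩ := (hit n l (by omega)).1 hl
      exact ⟨k, hk, (e _).2 h8⟩
  refine ⟨δ, h0, h1, ?_, ?_, ?_, ?_, fun m a b x hm => ?_,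
    fun η hη => freq_of (hll η hη), ?_⟩
  · rw [h2]
    refine forall₂_congr fun n hn => ?_
    rw [fin_iff n hn]
    exact Pool.Agent.Run7.h145.QL.hit_iff n
  · refine Pool.Agent.H499R2.LT.Dn_iff (fun n hn => ?_) h3
    rw [fin_iff n hn]
    exact Pool.Agent.Run7.h145.QL.hit_iff n
  · apply freq_of
    have tl : Tendsto (fun n : ℕ => Real.log n / n) atTop (𝓝 0) := by
      have := Real.isLittleO_log_id_atTop.tendsto_div_nhds_zero
      exact this.comp tendsto_natCast_atTop_atTop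
    have hnu : 0 < Real.log (4 / 3) := Real.log_pos (by norm_num)
    obtain ⟨n0, hn0⟩ := eventually_atTop.1 ((tl.const_mul (3 / Real.log (4 / 3) + 1)).eventually_lt_const
      (show (3 / Real.log (4 / 3) + 1) * 0 < 1 by rw [mul_zero]; exact one_pos))
    refine Pool.Agent.Run7.h145.QL.QV.squeeze fun ζ hζ =>
      ⟨fun n => ¬ ∃ l, IsTotalStoppingTime n l, fun n => ¬ ∃ l : ℕ, IsTotalStoppingTime n l ∧
        |(l : ℝ) / Real.log n - 3 / Real.log (4 / 3)| ≤ 1, 1 - δ, 1 - δ, n0 + 2, fun n _ h => ?_,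
        fun n hn h => ?_, Pool.Agent.Run7.h145.QL.QV.not hH (fun _ => Iff.rfl),
        Pool.Agent.Run7.h145.QL.QV.not (hll 1 one_pos) (fun _ => Iff.rfl), le_rfl, le_rfl, by linarith⟩
    · intro l hl
      exact absurd ⟨l, hl⟩ h
    · rintro ⟨l, hl, h8⟩
      have h9 := h l hl
      have h10 := hn0 n (by omega)
      have hnR : (0 : ℝ) < n := by exact_mod_cast (by omega : 0 < n)
      have hL : 0 < Real.log n := Real.log_pos (by exact_mod_cast (by omega : 1 < n))
      have h11 := (abs_le.1 h8).2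
      have h12 : (l : ℝ) / Real.log n ≤ 3 / Real.log (4 / 3) + 1 := by linarith
      rw [div_le_iff₀ hL] at h12
      have h13 : (n : ℝ) < l := by exact_mod_cast h9
      rw [← mul_div_assoc, div_lt_one hnR] at h10
      linarith
  · exact freq_of (Pool.Agent.Run7.h145.QL.QV.not hH (fun _ => Iff.rfl))
  · apply freq_of
    have h6 := ((h5 m a b hm).2.2 x).2.1
    have e : δ / (m : ℝ) ^ 2 * Pool.Agent.H499R2.ND.Phi x = δ * Phi x / m ^ 2 := by
      unfold Phi
      rw [← Pool.Agent.H499R2.ND.phi_cdf]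
      ring
    rw [e] at h6
    refine Pool.Agent.Run7.h145.QL.QV.congr 1 (fun n hn => ?_) h6
    constructor
    · rintro ⟨k, hk, g1, g2, g3⟩
      refine ⟨_, g1, (hit n _ hn).2 ⟨k, hk, rfl⟩, g2, ?_⟩
      have : odds (k + Pool.Agent.H499R2.LT.odn k n) n = Pool.Agent.H499R2.LT.odn k n :=
        Pool.Agent.Run7.h145.QL.ocn_run k n
      rw [this]
      exact g3
    · rintro ⟨l, g1, hl, g2, g3⟩
      obtain ⟨k, hk, rfl⟩ := (hit n l hn).1 hl
      have : odds (k + Pool.Agent.H499R2.LT.odn k n) n = Pool.Agent.H499R2.LT.odn k n :=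
        Pool.Agent.Run7.h145.QL.ocn_run k n
      rw [this] at g3
      exact ⟨k, hk, g1, g2, g3⟩
  · intro P f h
    exact ⟨fun k A hA l c x₀ h0 => Pool.Agent.Run7.h145.QL.X.cubes h hA l c h0,
      Pool.Agent.Run7.h145.QL.X.two_squares h, Pool.Agent.Run7.h145.QL.X.products h,
      fun hf α β γ hd => Pool.Agent.Run7.h145.QL.X.represent hf h hd⟩

end Pool.Agent.Results.MP_e43fce_nt.QuadraticValues
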